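import Pool.Agent.H41.SX.Def
import Pool.Agent.H41.RF.Core
import Pool.Agent.H47.SG.Ndbq
import Pool.Agent.H47.SG.Wlq

/-!
# Smoothed Fatou (MP_8f2e1c_an), sharp form: the core theorem from `GsMain` and `DetMain`
-/

set_option autoImplicit false

open MeasureTheory Finset Filter Topology

namespace Pool.Agent.H41.SX

open Pool.H70.SF Pool.Agent.H47.SF Pool.Agent.H32.BT Pool.Agent.H79.Eul Pool.Agent.H79.Par
open Pool.Agent.H41.RF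

/-- the random part: open sets `W i` -/
theorem rnx (hG : GsMain) {ε : ℝ} (hε : 0 < ε) (hε1 : ε ≤ 1) : ∃ e : ℝ, 0 < e ∧ ∀ (n n1 : ℕ) (κ1 : ℝ),
    1 ≤ n1 → n1 ≤ n → 0 < κ1 →
    ∃ κ : ℝ, 0 < κ ∧ κ ≤ κ1 ∧ κ ≤ 1 / 2 ∧ ∃ d0 : ℕ, ∀ d ≥ d0, ∀ (A : ℝ) (X0 : CV d) (τ B : ℝ), 0 ≤ A →
    (d : ℝ) ^ (-κ) ≤ τ → τ ≤ 1 →
    gau A X0 τ Set.univ ≤ 1 → (∀ u, IsU u → Pool.Agent.H73.ES.nn (FF X0 u) ≤ (d : ℝ) ^ κ / 2) →
    (∀ X : CV d, BN2 (X - X0) ≤ (d : ℝ) ^ 2 + 1 → BN2 X ≤ B) →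
    ∃ W : ℕ → Set (CV d), (∀ i, IsOpen (W i)) ∧
      gau A X0 τ (⋃ i ∈ range (8 * d + 1), W i)ᶜ ≤ ENNReal.ofReal (3 * (d : ℝ) ^ (-1 + ε)) ∧
      ∀ i, ∀ X ∈ W i, WelX n n1 e ((d : ℝ) ^ κ) B (gd d i) X := by
  obtain ⟨e0, he0, hG'⟩ := hG ε hε
  obtain ⟨e, he⟩ : ∃ e : ℝ, e = min e0 (ε / 60) := ⟨_, rfl⟩
  have hep : 0 < e := by
    rw [he]
    exact lt_min he0 (by positivity)
  have hee0 : e ≤ e0 := by
    rw [he]
    exact min_le_left _ _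
  have heε : e ≤ ε / 60 := by
    rw [he]
    exact min_le_right _ _
  refine ⟨e, hep, fun n n1 κ1 hn1 hn hκ1 => ?_⟩
  obtain ⟨κ2, hκ2, hG2⟩ := hG' n
  obtain ⟨κ, hκd⟩ : ∃ κ : ℝ, κ = min (min κ1 κ2) (min (e / 10) (ε / 16)) := ⟨_, rfl⟩
  have hκ0 : 0 < κ := by
    rw [hκd]
    exact lt_min (lt_min hκ1 hκ2) (lt_min (by positivity) (by positivity))
  have h1 : κ ≤ κ1 := by
    rw [hκd]
    exact (min_le_left _ _).trans (min_le_left _ _)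
  have h2 : κ ≤ κ2 := by
    rw [hκd]
    exact (min_le_left _ _).trans (min_le_right _ _)
  have h3 : κ ≤ e / 10 := by
    rw [hκd]
    exact (min_le_right _ _).trans (min_le_left _ _)
  have h4 : κ ≤ ε / 16 := by
    rw [hκd]
    exact (min_le_right _ _).trans (min_le_right _ _)
  obtain ⟨d1, hG3⟩ := hG2 κ hκ0 h2
  obtain ⟨d2, hsq⟩ := Pool.Agent.H47.SG.sq_large hep (by linarith)
  refine ⟨κ, hκ0, h1, by linarith, max (max d1 d2) (10 ^ 12), fun d hd A X0 τ B hA hτ hτ1 hg hX0 hB => ?_⟩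
  have hdd1 : d1 ≤ d := (le_trans (le_max_left _ _) (le_max_left _ _)).trans hd
  have hdd2 : d2 ≤ d := (le_trans (le_max_right _ _) (le_max_left _ _)).trans hd
  have hdd4 : 10 ^ 12 ≤ d := (le_max_right _ _).trans hd
  have hdd3 : 1 ≤ d := le_trans (by norm_num) hdd4
  have hD12 : (10 : ℝ) ^ 12 ≤ d := by exact_mod_cast hdd4
  have hD1 : (1 : ℝ) ≤ d := by exact_mod_cast hdd3
  have hD0 : (0 : ℝ) < d := by linarith
  have hτ0 : 0 < τ := lt_of_lt_of_le (Real.rpow_pos_of_pos hD0 _) hτ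
  have hR1 : 1 ≤ (d : ℝ) ^ κ := Real.one_le_rpow hD1 hκ0.le
  have hRq : ((d : ℝ) ^ κ) ^ 10 ≤ (d : ℝ) ^ e := by
    rw [← Real.rpow_natCast, ← Real.rpow_mul hD0.le]
    apply Real.rpow_le_rpow_of_exponent_le hD1
    push_cast
    linarith
  obtain ⟨O, hO, hOm, hOX⟩ := hG3 d hdd1 A X0 τ hA hτ hτ1 hg hX0
  obtain ⟨Z, hZ, hZm, hZX⟩ := Pool.Agent.H47.SG.nd_eventq (hsq d hdd2 _ hR1 hRq) hA X0 hτ0 hg
  have hZm' : gau A X0 τ Z ≤ ENNReal.ofReal ((d : ℝ) ^ (-1 + ε)) := by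
    refine hZm.trans (ENNReal.ofReal_le_ofReal ?_)
    have h5 : ((d : ℝ) ^ (-κ)) ^ 8 ≤ τ ^ 8 := pow_le_pow_left₀ (Real.rpow_nonneg hD0.le _) hτ 8
    have h6 : ((d : ℝ) ^ (-κ)) ^ 8 = (d : ℝ) ^ (-(8 * κ)) := by
      rw [← Real.rpow_natCast, ← Real.rpow_mul hD0.le]
      congr 1
      push_cast
      ring
    rw [h6] at h5
    have h7 : 0 < (d : ℝ) ^ (-(8 * κ)) := Real.rpow_pos_of_pos hD0 _
    calc ((d : ℝ) ^ e) ^ 30 / (d * τ ^ 8) ≤ ((d : ℝ) ^ e) ^ 30 / (d * (d : ℝ) ^ (-(8 * κ))) := by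
          gcongr
      _ = (d : ℝ) ^ (30 * e - 1 + 8 * κ) := by
          rw [← Real.rpow_natCast ((d : ℝ) ^ e) 30, ← Real.rpow_mul hD0.le]
          have h8 : (d : ℝ) * (d : ℝ) ^ (-(8 * κ)) = (d : ℝ) ^ (1 + -(8 * κ)) := by
            rw [Real.rpow_add hD0, Real.rpow_one]
          rw [h8, ← Real.rpow_sub hD0]
          congr 1
          push_cast
          ring
      _ ≤ (d : ℝ) ^ (-1 + ε) := Real.rpow_le_rpow_of_exponent_le hD1 (by linarith)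
  obtain ⟨Y, hY, hYm, hYX⟩ := Pool.Agent.H47.SG.wl_event (by omega : 2 ≤ d) hR1 hA X0 hτ0 hg
  have hYm' : gau A X0 τ Y ≤ ENNReal.ofReal ((d : ℝ) ^ (-1 + ε)) := by
    refine hYm.trans (ENNReal.ofReal_le_ofReal ?_)
    have h5 : ((d : ℝ) ^ (-κ)) ^ 8 ≤ τ ^ 8 := pow_le_pow_left₀ (Real.rpow_nonneg hD0.le _) hτ 8
    have h6 : ((d : ℝ) ^ (-κ)) ^ 8 = (d : ℝ) ^ (-(8 * κ)) := by
      rw [← Real.rpow_natCast, ← Real.rpow_mul hD0.le]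
      congr 1
      push_cast
      ring
    rw [h6] at h5
    have h7 : 0 < (d : ℝ) ^ (-(8 * κ)) := Real.rpow_pos_of_pos hD0 _
    calc 10 ^ 12 * ((d : ℝ) ^ κ) ^ 6 / ((d : ℝ) ^ 3 * τ ^ 8) ≤
          d * ((d : ℝ) ^ κ) ^ 6 / ((d : ℝ) ^ 3 * (d : ℝ) ^ (-(8 * κ))) := by
          gcongr
      _ = (d : ℝ) ^ (6 * κ - 2 + 8 * κ) := by
          have h8 : ((d : ℝ) ^ κ) ^ 6 = (d : ℝ) ^ (6 * κ) := by
            rw [← Real.rpow_natCast, ← Real.rpow_mul hD0.le]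
            congr 1
            push_cast
            ring
          have h9 : (d : ℝ) ^ 3 = (d : ℝ) ^ (3 : ℝ) := by
            rw [← Real.rpow_natCast]
            norm_num
          rw [h8, h9, div_eq_iff (by positivity)]
          nth_rewrite 1 [← Real.rpow_one (d : ℝ)]
          rw [← Real.rpow_add hD0, ← Real.rpow_add hD0, ← Real.rpow_add hD0]
          congr 1
          ring
      _ ≤ (d : ℝ) ^ (-1 + ε) := Real.rpow_le_rpow_of_exponent_le hD1 (by linarith)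
  have hNd : ∀ X ∈ O, Ndg X := by
    intro X hX u hu h0
    have h4 := ((hOX X hX).2.1 u hu).1
    rw [h0] at h4
    have h5 : Pool.Agent.H73.ES.nn (0 : ℂ × ℂ) = 0 := by
      unfold Pool.Agent.H73.ES.nn n2
      simp
    rw [h5] at h4
    have : 0 < (d : ℝ)⁻¹ := inv_pos.2 hD0
    linarith
  refine ⟨fun i => ((O \ Z) \ Y) ∩ {X | Ndg X ∧ Trv (gd d i) n1 X}, fun i =>
    ((hO.sdiff hZ).sdiff hY).inter (trv_open _ _), ?_, ?_⟩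
  · have hsub : (⋃ i ∈ range (8 * d + 1), (((O \ Z) \ Y) ∩
        {X : CV d | Ndg X ∧ Trv (gd d i) n1 X}))ᶜ ⊆ (Oᶜ ∪ Z) ∪ Y := by
      intro X hX
      by_contra hcon
      rw [Set.mem_union, Set.mem_union, not_or, not_or, Set.mem_compl_iff, not_not] at hcon
      obtain ⟨⟨hcO, hcZ⟩, hcY⟩ := hcon
      apply hX
      obtain ⟨-, -, -, h5⟩ := hOX X hcO
      obtain ⟨i, hi, hT⟩ := h5 n1 hn1 hn
      rw [Set.mem_iUnion₂]
      exact ⟨i, mem_range.2 (by omega), ⟨⟨hcO, hcZ⟩, hcY⟩, hNd X hcO, hT⟩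
    refine (measure_mono hsub).trans ((measure_union_le _ _).trans ((add_le_add
      ((measure_union_le _ _).trans (add_le_add hOm hZm')) hYm').trans ?_))
    rw [← ENNReal.ofReal_add (Real.rpow_nonneg hD0.le _) (Real.rpow_nonneg hD0.le _),
      ← ENNReal.ofReal_add (add_nonneg (Real.rpow_nonneg hD0.le _) (Real.rpow_nonneg hD0.le _))
        (Real.rpow_nonneg hD0.le _)]
    apply ENNReal.ofReal_le_ofReal
    linarith
  · rintro i X ⟨⟨⟨h5, h6⟩, h6'⟩, h7, h8⟩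
    obtain ⟨g1, g2, g3, -⟩ := hOX X h5
    exact ⟨g2, hB X g1, g3.mono hdd3 le_rfl hee0, hZX X h6 g2, hYX X h6' g2, h7, h8⟩

theorem gau_core (hG : GsMain) (hD : DetMain) {ε : ℝ} (hε : 0 < ε) (hε1 : ε ≤ 1) :
    ∃ κ : ℝ, 0 < κ ∧ ∃ d0 : ℕ, ∀ d ≥ d0, ∀ (A : ℝ) (X0 : CV d) (τ : ℝ),
    0 ≤ A → (d : ℝ) ^ (-κ) ≤ τ → τ ≤ 1 → gau A X0 τ Set.univ ≤ 1 → Ctr X0 →
    gau A X0 τ {X | ¬ Fine X} ≤ ENNReal.ofReal (4 * (d : ℝ) ^ (-1 + ε)) := by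
  obtain ⟨e, he, hr0⟩ := rnx hG hε hε1
  obtain ⟨n, n1, N0, κ1, hκ1, hn1, hn, hN0, d2, hf⟩ := hD e he
  obtain ⟨κ, hκ, hκκ, hκh, d1, hr⟩ := hr0 n n1 κ1 hn1 hn hκ1
  obtain ⟨d3, hm⟩ := mstep N0 hN0
  obtain ⟨d4, hd4⟩ : ∃ d4 : ℕ, ∀ d : ℕ, d4 ≤ d → 4 ≤ (d : ℝ) ^ κ := by
    have h1 : Filter.Tendsto (fun d : ℕ => (d : ℝ) ^ κ) Filter.atTop Filter.atTop :=
      (tendsto_rpow_atTop hκ).comp tendsto_natCast_atTop_atTop
    exact Filter.eventually_atTop.1 (h1.eventually_ge_atTop _)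
  refine ⟨κ, hκ, max (max d1 d2) (max (max d3 d4) 100), fun d hd A X0 τ hA hτ hτ1 hg hX0 => ?_⟩
  have hdd1 : d1 ≤ d := (le_trans (le_max_left _ _) (le_max_left _ _)).trans hd
  have hdd2 : d2 ≤ d := (le_trans (le_max_right _ _) (le_max_left _ _)).trans hd
  have hdd3 : d3 ≤ d :=
    (le_trans (le_trans (le_max_left _ _) (le_max_left _ _)) (le_max_right _ _)).trans hd
  have hdd4 : d4 ≤ d :=
    (le_trans (le_trans (le_max_right _ _) (le_max_left _ _)) (le_max_right _ _)).trans hd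
  have hdd5 : 100 ≤ d := (le_trans (le_max_right _ _) (le_max_right _ _)).trans hd
  have hD100 : (100 : ℝ) ≤ d := by exact_mod_cast hdd5
  have hD1 : (1 : ℝ) ≤ d := by linarith
  have hD0 : (0 : ℝ) < d := by linarith
  have hbn := bn_ctr hX0
  have hR1 : 1 ≤ (d : ℝ) ^ κ := Real.one_le_rpow hD1 hκ.le
  have hRκ : (d : ℝ) ^ κ ≤ (d : ℝ) ^ κ1 := Real.rpow_le_rpow_of_exponent_le hD1 hκκ
  -- the centre
  have hnn : ∀ u, IsU u → Pool.Agent.H73.ES.nn (FF X0 u) ≤ (d : ℝ) ^ κ / 2 := by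
    intro u hu
    have h1 := hd4 d hdd4
    obtain ⟨h2, h3⟩ := hX0 u hu
    have h4 : Pool.Agent.H73.ES.nn (FF X0 u) ≤ 2 := by
      unfold Pool.Agent.H73.ES.nn
      rw [Real.sqrt_le_left (by norm_num)]
      unfold n2 FF
      simp only
      nlinarith [norm_nonneg (hev X0.1 u), norm_nonneg (hev X0.2 u)]
    linarith
  have hB : ∀ X : CV d, BN2 (X - X0) ≤ (d : ℝ) ^ 2 + 1 → BN2 X ≤ ((d : ℝ) ^ 5 / 2) ^ 2 := by
    intro X hX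
    have h1 := BN2_sub_le (X - X0) (-X0) (l := 1) one_pos
    have h2 : (X - X0) - (-X0) = X := by abel
    have h3 : BN2 (-X0) = BN2 X0 := by
      unfold BN2
      simp
    rw [h2, h3] at h1
    have h4 : (2 * ((d : ℝ) + 1) ^ 2) ≤ 8 * (d : ℝ) ^ 2 := by nlinarith
    have h5 : (d : ℝ) ^ 2 * 400 ≤ (d : ℝ) ^ 10 := by
      have h6 : (d : ℝ) ^ 10 = (d : ℝ) ^ 2 * (d : ℝ) ^ 8 := by ring
      rw [h6]
      apply mul_le_mul_of_nonneg_left _ (by positivity)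
      calc (400 : ℝ) ≤ 100 ^ 8 := by norm_num
        _ ≤ (d : ℝ) ^ 8 := pow_le_pow_left₀ (by norm_num) hD100 8
    have h7 : (1 : ℝ) ≤ (d : ℝ) ^ 2 := one_le_pow₀ hD1
    have h8 : ((d : ℝ) ^ 5 / 2) ^ 2 = (d : ℝ) ^ 10 / 4 := by ring
    rw [h8]
    norm_num at h1
    nlinarith
  obtain ⟨W, hWo, hWm, hWX⟩ := hr d hdd1 A X0 τ (((d : ℝ) ^ 5 / 2) ^ 2) hA hτ hτ1 hg hnn hB
  have hfin : ∀ i ≤ 8 * d, ∀ X ∈ W i, _ := fun i hi X hX =>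
    hf d hdd2 _ hR1 hRκ (gd d i) (n2_gd (by omega) hi) (W i) (hWo i) (hWX i) X hX
  have hK80 : ((d : ℝ) ^ 5) ^ 80 ≤ 64 * ((d : ℝ) ^ 200) ^ 2 := by
    have h1 : ((d : ℝ) ^ 5) ^ 80 = ((d : ℝ) ^ 200) ^ 2 := by
      rw [← pow_mul, ← pow_mul]
    rw [h1]
    have : (0 : ℝ) < ((d : ℝ) ^ 200) ^ 2 := by positivity
    linarith
  have hd5 : (d : ℝ) ≤ (d : ℝ) ^ 5 := by
    calc (d : ℝ) = (d : ℝ) ^ 1 := (pow_one _).symm
      _ ≤ (d : ℝ) ^ 5 := pow_le_pow_right₀ hD1 (by norm_num)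
  have hms := hm d hdd3 A X0 τ (64 * ((d : ℝ) ^ 200) ^ 2) hA
    (by
      refine le_trans ?_ hτ
      rw [← Real.rpow_neg_one]
      exact Real.rpow_le_rpow_of_exponent_le hD1 (by linarith)) hτ1 hg
    (by
      refine hbn.trans ?_
      have h4 : (2 * ((d : ℝ) + 1) ^ 2) ≤ 8 * (d : ℝ) ^ 2 := by nlinarith
      have h6 : ((d : ℝ) ^ 5) ^ 2 = (d : ℝ) ^ 2 * (d : ℝ) ^ 8 := by ring
      rw [h6]
      refine h4.trans ?_
      rw [mul_comm]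
      apply mul_le_mul_of_nonneg_left _ (by positivity)
      calc (8 : ℝ) ≤ 100 ^ 8 := by norm_num
        _ ≤ (d : ℝ) ^ 8 := pow_le_pow_left₀ (by norm_num) hD100 8)
    (by
      refine le_trans ?_ hK80
      exact pow_le_pow_right₀ (hD1.trans hd5) (by norm_num))
    (FRp_of (by omega) hd5 (by linarith) hK80) W (fun i _ => hWo i)
    (fun i hi X hX => ⟨(hWX i X hX).ndg, (hfin i hi X hX).1, (hfin i hi X hX).2.1⟩)
  have hsub : {X : CV d | ¬ Fine X} ⊆ (⋃ i ∈ range (8 * d + 1), W i)ᶜ ∪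
      ⋃ i ∈ range (8 * d + 1), (W i ∩ {X | Ndg X ∧
        Fail (64 * ((d : ℝ) ^ 200) ^ 2) ((d : ℝ) ^ N0) (1 / 24) X}) := by
    intro X hX
    by_contra hcon
    rw [Set.mem_union, not_or, Set.mem_compl_iff, not_not] at hcon
    obtain ⟨h1, h2⟩ := hcon
    rw [Set.mem_iUnion₂] at h1
    obtain ⟨i, hi, hXi⟩ := h1
    have hi' : i ≤ 8 * d := by
      have := mem_range.1 hi
      omega
    have hF : ¬ Fail (64 * ((d : ℝ) ^ 200) ^ 2) ((d : ℝ) ^ N0) (1 / 24) X := by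
      intro hF
      apply h2
      rw [Set.mem_iUnion₂]
      exact ⟨i, hi, hXi, (hWX i X hXi).ndg, hF⟩
    obtain ⟨h3, h4⟩ := (hfin i hi' X hXi).2.2 hF
    exact hX (fine_of (by omega) (hWX i X hXi).ndg h3 h4)
  refine (measure_mono hsub).trans ((measure_union_le _ _).trans ((add_le_add hWm hms).trans ?_))
  rw [← ENNReal.ofReal_add (by positivity) (inv_nonneg.2 hD0.le)]
  apply ENNReal.ofReal_le_ofReal
  have h9 : (d : ℝ)⁻¹ ≤ (d : ℝ) ^ (-1 + ε) := by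
    rw [← Real.rpow_neg_one]
    exact Real.rpow_le_rpow_of_exponent_le hD1 (by linarith)
  linarith

theorem core (hG : GsMain) (hD : DetMain) {ε : ℝ} (hε : 0 < ε) (hε1 : ε ≤ 1) :
    ∃ C κ : ℝ, 0 < κ ∧ ∀ d : ℕ, 2 ≤ d → ∀ X0 : CV d, Ctr X0 → ∀ τ : ℝ,
    (d : ℝ) ^ (-κ) ≤ τ → τ ≤ 1 →
    gE d {ξ | ¬ Fine (XG X0 τ ξ)} ≤ ENNReal.ofReal (C * (d : ℝ) ^ (-1 + ε)) := by
  obtain ⟨κ, hκ, d0, h⟩ := gau_core hG hD hε hε1
  refine ⟨max 4 (d0 : ℝ), κ, hκ, fun d hd X0 hX0 τ hτ hτ1 => ?_⟩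
  have hD1 : (1 : ℝ) ≤ d := by exact_mod_cast (by omega : 1 ≤ d)
  have hD0 : (0 : ℝ) < d := by linarith
  have hdc : 0 < (d : ℝ) ^ (-1 + ε) := Real.rpow_pos_of_pos hD0 _
  by_cases hdd : d0 ≤ d
  · have hτ0 : 0 < τ := lt_of_lt_of_le (Real.rpow_pos_of_pos hD0 _) hτ
    obtain ⟨A, hA, hlaw⟩ := law_eq X0 hτ0
    have hprob : gau A X0 τ Set.univ = 1 := by
      rw [← hlaw, Measure.map_apply (XG_meas X0 τ) MeasurableSet.univ, Set.preimage_univ]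
      exact measure_univ
    have h1 := h d hdd A X0 τ hA.le hτ hτ1 hprob.le hX0
    have h2 : gE d {ξ | ¬ Fine (XG X0 τ ξ)} ≤ gau A X0 τ {X | ¬ Fine X} := by
      rw [← hlaw]
      exact Measure.le_map_apply (XG_meas X0 τ).aemeasurable _
    exact h2.trans (h1.trans (ENNReal.ofReal_le_ofReal
      (mul_le_mul_of_nonneg_right (le_max_left _ _) hdc.le)))
  · rw [not_le] at hdd
    have h1 : gE d {ξ | ¬ Fine (XG X0 τ ξ)} ≤ 1 := prob_le_one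
    refine h1.trans ?_
    rw [← ENNReal.ofReal_one]
    apply ENNReal.ofReal_le_ofReal
    have h2 : (d : ℝ) ≤ (d0 : ℝ) := by exact_mod_cast hdd.le
    have h3 : (d : ℝ) * (d : ℝ) ^ (-1 + ε) = (d : ℝ) ^ ε := by
      nth_rewrite 1 [← Real.rpow_one (d : ℝ)]
      rw [← Real.rpow_add hD0]
      congr 1
      ring
    calc (1 : ℝ) ≤ (d : ℝ) ^ ε := Real.one_le_rpow hD1 hε.le
      _ = (d : ℝ) * (d : ℝ) ^ (-1 + ε) := h3.symm
      _ ≤ max 4 (d0 : ℝ) * (d : ℝ) ^ (-1 + ε) :=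
          mul_le_mul_of_nonneg_right (h2.trans (le_max_right _ _)) hdc.le

end Pool.Agent.H41.SX
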