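import Pool.Agent.H41.RF.Rnd
import Pool.Agent.H79.Par.XX
import Pool.Agent.H70.SF.EV

/-!
# Smoothed Fatou (MP_8f2e1c_an), sharp form: the interface between the random and the deterministic part

`GS n e X`: the growth along the critical orbits (helper84, from helper73's random part). `NDx Q R X`: no small value of
`|aa| |FF|` without a critical point nearby (helper47's `nd_eventq`). `WelX`: what holds on the open sets.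
-/

set_option autoImplicit false

open MeasureTheory Finset Filter Topology

namespace Pool.Agent.H41.SX

open Pool.H70.SF Pool.Agent.H47.SF Pool.Agent.H41.RF

/-- growth along the critical orbits up to the time `n` -/
structure GS {d : ℕ} (n : ℕ) (e : ℝ) (X : CV d) : Prop where
  f2 : ∀ c, IsU c → JJ X c = 0 → 1 ≤ f2 X c
  al : ∀ c, IsU c → JJ X c = 0 → ∀ l ≤ n, (d : ℝ)⁻¹ ≤ ‖al X c l‖
  ph : ∀ c, IsU c → JJ X c = 0 → ∀ k, 2 ≤ k → k ≤ n → (d : ℝ) ^ (e * k) ≤ Ph X c k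

/-- a small value of `|aa| |FF|` has a critical point nearby -/
def NDx {d : ℕ} (Q R : ℝ) (X : CV d) : Prop :=
  ∀ u, IsU u → ‖aa X u‖ * nuF X u < Q ^ 3 →
    ∃ t : ℂ, ‖t‖ < nuF X u / (16 * R * Real.sqrt d * Q ^ 2) ∧ Wc X u t = 0

/-- what holds on the open sets (`R = d ^ κ` with `κ` small, `Q = d ^ e`) -/
structure WelX {d : ℕ} (n n1 : ℕ) (e R B : ℝ) (v : ℂ × ℂ) (X : CV d) : Prop where
  gg : Pool.Agent.H73.ES.GG R X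
  bn : BN2 X ≤ B
  gs : GS n e X
  nd : NDx ((d : ℝ) ^ e) R X
  wl : ∀ u, IsU u → ∃ t : ℂ, ‖t‖ ≤ 2 / d ∧ 1 / (2 * (d : ℝ) ^ 3) ≤ ‖Wc X u t‖
  ndg : Ndg X
  trv : Trv v n1 X

theorem GS.mono {d n n' : ℕ} {e e' : ℝ} (hd : 1 ≤ d) {X : CV d} (h : GS n e X) (hn : n' ≤ n) (he : e' ≤ e) :
    GS n' e' X where
  f2 := h.f2
  al := fun c hc hJ l hl => h.al c hc hJ l (hl.trans hn)
  ph := fun c hc hJ k hk hkn => by
    refine le_trans ?_ (h.ph c hc hJ k hk (hkn.trans hn))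
    refine Real.rpow_le_rpow_of_exponent_le (by exact_mod_cast hd) ?_
    exact mul_le_mul_of_nonneg_right he (Nat.cast_nonneg k)

/-- the random part of the sharp form with its consequences for the critical orbits: growth and transversality outside a set of
measure `d ^ (-1 + ε)` (helper73, helper84). The growth exponent `e` depends only on `ε`. -/
def GsMain : Prop :=
  ∀ ε : ℝ, 0 < ε → ∃ e : ℝ, 0 < e ∧ ∀ n : ℕ, ∃ κ1 : ℝ, 0 < κ1 ∧ ∀ κ : ℝ, 0 < κ → κ ≤ κ1 →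
    ∃ d0 : ℕ, ∀ d ≥ d0, ∀ (A : ℝ) (X0 : CV d) (τ : ℝ), 0 ≤ A → (d : ℝ) ^ (-κ) ≤ τ → τ ≤ 1 →
    gau A X0 τ Set.univ ≤ 1 → (∀ u, IsU u → Pool.Agent.H73.ES.nn (FF X0 u) ≤ (d : ℝ) ^ κ / 2) →
    ∃ O : Set (CV d), IsOpen O ∧ gau A X0 τ Oᶜ ≤ ENNReal.ofReal ((d : ℝ) ^ (-1 + ε)) ∧
      ∀ X ∈ O, BN2 (X - X0) ≤ (d : ℝ) ^ 2 + 1 ∧ Pool.Agent.H73.ES.GG ((d : ℝ) ^ κ) X ∧ GS n e X ∧
        ∀ n1 : ℕ, 1 ≤ n1 → n1 ≤ n → ∃ i ≤ 8 * d, Trv (gd d i) n1 X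

/-- the deterministic part of the sharp form (helper91, helper47) -/
def DetMain : Prop :=
  ∀ e : ℝ, 0 < e → ∃ (n n1 N0 : ℕ) (κ1 : ℝ), 0 < κ1 ∧ 1 ≤ n1 ∧ n1 ≤ n ∧ 1000 ≤ N0 ∧
    ∃ d0 : ℕ, ∀ d ≥ d0, ∀ R : ℝ, 1 ≤ R → R ≤ (d : ℝ) ^ κ1 → ∀ v : ℂ × ℂ, n2 v ≤ 2 →
    ∀ W : Set (CV d), IsOpen W → (∀ Y ∈ W, WelX n n1 e R (((d : ℝ) ^ 5 / 2) ^ 2) v Y) → ∀ X ∈ W,
    Rg ((d : ℝ) ^ 5) X ∧
    (Fail (64 * ((d : ℝ) ^ 200) ^ 2) ((d : ℝ) ^ N0) (1 / 24) X →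
      ∃ c k, EvD ((d : ℝ) ^ 5) (64 * ((d : ℝ) ^ 200) ^ 2) (1 / 24) (7 * (1 / 24) ^ 2)
        ((d : ℝ) ^ N0) v X c k) ∧
    (¬ Fail (64 * ((d : ℝ) ^ 200) ^ 2) ((d : ℝ) ^ N0) (1 / 24) X →
      (∀ ε : ℝ, 0 < ε → ∃ w ∈ Metric.ball X ε, Pool.Agent.H79.Par.HypDeg (d := d) w) ∧
      ∀ c, IsU c → JJ X c = 0 → ∀ B : ℝ, ∃ l0, ∀ l, l0 ≤ l → B < Ph X c l)

end Pool.Agent.H41.SX
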