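import Pool.Agent.H41.SX.Det
import Pool.Agent.H47.SG.Lqe
import Pool.Agent.H47.SG.Crnq
import Pool.Agent.H47.SG.Sys

/-!
# Smoothed Fatou (MP_8f2e1c_an), sharp form: `HypMain` and `CrnMain` from helper47's `hyp_of` and `crnq`
-/

set_option autoImplicit false

open Finset Filter Topology

namespace Pool.Agent.H41.SX

open Pool.H70.SF Pool.Agent.H47.SF Pool.Agent.H41.RF Pool.Agent.H91.BL

theorem hyp_mono {α : Type} {S : Sy α} {Λ Δ ρ0 θ Ea Eρ M Sm Γ Γp Eρ' M' : ℝ} {k0 n0 : ℕ}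
    (H : Hyp S Λ Δ ρ0 θ Ea Eρ M Sm Γ Γp k0 n0) (hE : Eρ ≤ Eρ') (hM : M ≤ M') :
    Hyp S Λ Δ ρ0 θ Ea Eρ' M' Sm Γ Γp k0 n0 := by
  have h1 : 0 < Eρ := by linarith [H.hEρ]
  have h2 : 1 / Eρ' ≤ 1 / Eρ := one_div_le_one_div_of_le h1 hE
  exact { H with
    hM := H.hM.trans hM
    hEρ := H.hEρ.trans hE
    hEρ0 := h2.trans H.hEρ0
    aR := fun x => (H.aR x).trans (mul_le_mul_of_nonneg_right hM (H.R0 x))
    rlo := fun c hc l hl => h2.trans (H.rlo c hc l hl) }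

theorem ev_ge {a : ℝ} (ha : 0 < a) (K : ℝ) : ∃ d0 : ℕ, ∀ d ≥ d0, K ≤ (d : ℝ) ^ a := by
  have htop : Tendsto (fun d : ℕ => (d : ℝ) ^ a) atTop atTop :=
    (tendsto_rpow_atTop ha).comp tendsto_natCast_atTop_atTop
  exact eventually_atTop.1 (htop.eventually_ge_atTop K)

theorem ev_log {a : ℝ} (ha : 0 < a) {K : ℝ} (hK : 0 < K) :
    ∃ d0 : ℕ, ∀ d ≥ d0, K * Real.log d ≤ (d : ℝ) ^ a := by
  have h := (isLittleO_log_rpow_atTop (r := a) ha).def (c := K⁻¹) (by positivity)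
  have h' := tendsto_natCast_atTop_atTop.eventually h
  obtain ⟨d0, hd0⟩ := eventually_atTop.1 h'
  refine ⟨d0, fun d hd => ?_⟩
  have hd1 := hd0 d hd
  have h1 : ‖((d : ℝ) ^ a)‖ = (d : ℝ) ^ a := by
    rw [Real.norm_eq_abs, abs_of_nonneg (Real.rpow_nonneg (Nat.cast_nonneg d) _)]
  rw [h1] at hd1
  have h2 : Real.log d ≤ ‖Real.log d‖ := le_abs_self _
  have h3 := h2.trans hd1
  calc K * Real.log d ≤ K * (K⁻¹ * (d : ℝ) ^ a) := by gcongr
    _ = (d : ℝ) ^ a := by rw [← mul_assoc, mul_inv_cancel₀ hK.ne', one_mul]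

theorem crn_main : CrnMain := by
  intro e he he1
  obtain ⟨N, d1, hL⟩ := Pool.Agent.H47.SG.lq_large 2 he (by linarith)
  refine ⟨e / 10, by positivity, max d1 (3 ^ (N + 2)), fun d hd R hR1 hR X hG hnd _ hf => ?_⟩
  have hd1 : d1 ≤ d := (le_max_left _ _).trans hd
  have hd3 : 3 ^ (N + 2) ≤ d := (le_max_right _ _).trans hd
  have hR10 : R ^ 10 ≤ (d : ℝ) ^ e := by
    calc R ^ 10 ≤ ((d : ℝ) ^ (e / 10)) ^ 10 := pow_le_pow_left₀ (by linarith) hR 10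
      _ = (d : ℝ) ^ e := by
          rw [← Real.rpow_natCast, ← Real.rpow_mul (Nat.cast_nonneg d)]
          congr 1
          push_cast
          ring
  exact Pool.Agent.H47.SG.crnq (hL d hd1 R hR1 hR10) le_rfl hd3 hG hnd hf

theorem hyp_main : HypMain := by
  intro e he he1
  obtain ⟨N, d1, hL⟩ := Pool.Agent.H47.SG.lq_large 3236 he (by linarith)
  refine ⟨N, fun n hn η σ hη hησ hσ => ?_⟩
  obtain ⟨d2, h2⟩ := ev_ge hη (2 * 6 ^ (N + 1))
  obtain ⟨d3, h3⟩ := ev_ge (half_pos hη) (8000 * n)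
  obtain ⟨d4, h4⟩ := ev_log (half_pos hη) (K := 280) (by norm_num)
  obtain ⟨d5, h5⟩ := ev_ge he 21
  refine ⟨e / 10, by positivity, max (max (max d1 d2) (max d3 d4)) (max d5 (2 ^ 14)),
    fun d hd R hR1 hR X hG hnd _ hgs => ?_⟩
  have hdd1 : d1 ≤ d := by omega
  have hdd2 : d2 ≤ d := by omega
  have hdd3 : d3 ≤ d := by omega
  have hdd4 : d4 ≤ d := by omega
  have hdd5 : d5 ≤ d := by omega
  have hdd6 : 2 ^ 14 ≤ d := by omega
  have hD : (16384 : ℝ) ≤ d := by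
    have : ((2 ^ 14 : ℕ) : ℝ) ≤ d := Nat.cast_le.2 hdd6
    refine le_trans ?_ this
    norm_num
  have hD0 : (0 : ℝ) < d := by linarith
  have hD1 : (1 : ℝ) ≤ d := by linarith
  have hR10 : R ^ 10 ≤ (d : ℝ) ^ e := by
    calc R ^ 10 ≤ ((d : ℝ) ^ (e / 10)) ^ 10 := pow_le_pow_left₀ (by linarith) hR 10
      _ = (d : ℝ) ^ e := by
          rw [← Real.rpow_natCast, ← Real.rpow_mul (Nat.cast_nonneg d)]
          congr 1
          push_cast
          ring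
  have L := hL d hdd1 R hR1 hR10
  have hR0 : 0 < R := by linarith
  have hRd : R ^ 2 ≤ (d : ℝ) ^ (1 / 50 : ℝ) := by
    calc R ^ 2 ≤ ((d : ℝ) ^ (e / 10)) ^ 2 := pow_le_pow_left₀ (by linarith) hR 2
      _ = (d : ℝ) ^ (e / 5) := by
          rw [← Real.rpow_natCast, ← Real.rpow_mul hD0.le]
          congr 1
          push_cast
          ring
      _ ≤ _ := Real.rpow_le_rpow_of_exponent_le hD1 (by linarith)
  have hhalf : Real.sqrt ((d : ℝ) ^ η) = (d : ℝ) ^ (η / 2) := by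
    rw [Real.sqrt_eq_rpow, ← Real.rpow_mul hD0.le]
    congr 1
    ring
  have hsd : Real.sqrt d = (d : ℝ) ^ (1 / 2 : ℝ) := Real.sqrt_eq_rpow _
  have hsQ : Real.sqrt ((d : ℝ) ^ e) = (d : ℝ) ^ (e / 2) := by
    rw [Real.sqrt_eq_rpow, ← Real.rpow_mul hD0.le]
    congr 1
    ring
  have hΔ : Real.sqrt ((d : ℝ) ^ e) / Real.sqrt d = (d : ℝ) ^ (e / 2 - 1 / 2) := by
    rw [hsQ, hsd, ← Real.rpow_sub hD0]
  have hρ : 1 / Real.sqrt d = (d : ℝ) ^ (-(1 / 2) : ℝ) := by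
    rw [hsd, Real.rpow_neg hD0.le, one_div]
  have h64 : (64 : ℝ) ≤ (d : ℝ) ^ (44 / 50 : ℝ) := by
    calc (64 : ℝ) ≤ (16384 : ℝ) ^ (1 / 2 : ℝ) := by
          rw [← Real.sqrt_eq_rpow, show (16384 : ℝ) = 128 ^ 2 by norm_num, Real.sqrt_sq (by norm_num)]
          norm_num
      _ ≤ (d : ℝ) ^ (1 / 2 : ℝ) := Real.rpow_le_rpow (by norm_num) hD (by norm_num)
      _ ≤ _ := Real.rpow_le_rpow_of_exponent_le hD1 (by norm_num)
  have h64R : 64 * R ^ 2 ≤ (d : ℝ) ^ (9 / 10 : ℝ) := by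
    calc 64 * R ^ 2 ≤ (d : ℝ) ^ (44 / 50 : ℝ) * (d : ℝ) ^ (1 / 50 : ℝ) := by gcongr
      _ = _ := by
          rw [← Real.rpow_add hD0]
          norm_num
  have hE : 64 * R ^ 2 * (d : ℝ) ^ 4 ≤ (d : ℝ) ^ ((49 : ℝ) / 10) := by
    calc 64 * R ^ 2 * (d : ℝ) ^ 4 ≤ (d : ℝ) ^ (9 / 10 : ℝ) * (d : ℝ) ^ 4 := by gcongr
      _ = _ := by
          rw [← Real.rpow_natCast, ← Real.rpow_add hD0]
          norm_num
  have hM : 64 * R ^ 2 * (d : ℝ) ^ 3 ≤ (d : ℝ) ^ 5 := by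
    calc 64 * R ^ 2 * (d : ℝ) ^ 3 ≤ (d : ℝ) ^ (9 / 10 : ℝ) * (d : ℝ) ^ 3 := by gcongr
      _ ≤ (d : ℝ) ^ (2 : ℝ) * (d : ℝ) ^ 3 :=
          mul_le_mul_of_nonneg_right (Real.rpow_le_rpow_of_exponent_le hD1 (by norm_num)) (by positivity)
      _ = _ := by
          rw [← Real.rpow_natCast, ← Real.rpow_natCast, ← Real.rpow_add hD0]
          norm_num
  have hH := Pool.Agent.H47.SG.hyp_of (n0 := n) (Λ := (d : ℝ) ^ η) (Sm := (d : ℝ) ^ σ)
    (Γ := (d : ℝ) ^ (2 * e)) (Γp := (d : ℝ) ^ (η + σ)) L hG hnd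
    (fun c hc hJ l hl => hgs.al c hc hJ l hl) (fun c hc hJ k hk hkn => by
      refine le_trans ?_ (hgs.ph c hc hJ k hk hkn)
      refine Real.rpow_le_rpow_of_exponent_le hD1 ?_
      have : (2 : ℝ) ≤ k := by exact_mod_cast hk
      nlinarith) hn (h2 d hdd2) (by rw [hhalf]; exact h3 d hdd3) (by
      rw [hhalf]
      refine le_trans ?_ (h4 d hdd4)
      have h6 : 8 * R ^ 2 * Real.sqrt d * (d : ℝ) ^ 3 ≤ (d : ℝ) ^ 7 := by
        have h7 : 8 * R ^ 2 ≤ (d : ℝ) ^ 2 := by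
          have h8 : (d : ℝ) ^ (9 / 10 : ℝ) ≤ (d : ℝ) ^ (2 : ℝ) :=
            Real.rpow_le_rpow_of_exponent_le hD1 (by norm_num)
          rw [Real.rpow_two] at h8
          nlinarith [sq_nonneg R]
        have h9 : Real.sqrt d ≤ (d : ℝ) ^ 2 := by
          rw [Real.sqrt_le_left (by positivity)]
          calc (d : ℝ) = (d : ℝ) ^ 1 := (pow_one _).symm
            _ ≤ (d : ℝ) ^ 4 := pow_le_pow_right₀ hD1 (by norm_num)
            _ = _ := by ring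
        calc 8 * R ^ 2 * Real.sqrt d * (d : ℝ) ^ 3 ≤ (d : ℝ) ^ 2 * (d : ℝ) ^ 2 * (d : ℝ) ^ 3 := by gcongr
          _ = _ := by ring
      have h10 : 0 < 8 * R ^ 2 * Real.sqrt d * (d : ℝ) ^ 3 := by
        have : 0 < Real.sqrt d := Real.sqrt_pos.2 hD0
        positivity
      have h11 := Real.log_le_log h10 h6
      rw [Real.log_pow] at h11
      push_cast at h11
      linarith)
    (Real.one_le_rpow hD1 (by linarith)) (by
      rw [← Real.rpow_natCast, ← Real.rpow_mul hD0.le]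
      refine Real.rpow_le_rpow_of_exponent_le hD1 ?_
      push_cast
      linarith) (by
      rw [hsQ, ← Real.rpow_add hD0]
      exact Real.rpow_le_rpow_of_exponent_le hD1 (by linarith)) (by
      rw [← Real.rpow_add hD0]) (by
      calc 21 * R * (d : ℝ) ^ σ * (d : ℝ) ^ (η + σ)
          ≤ (d : ℝ) ^ e * (d : ℝ) ^ (e / 10) * (d : ℝ) ^ σ * (d : ℝ) ^ (η + σ) := by
            gcongr
            exact h5 d hdd5
        _ = (d : ℝ) ^ (e + e / 10 + σ + (η + σ)) := by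
            rw [← Real.rpow_add hD0, ← Real.rpow_add hD0, ← Real.rpow_add hD0]
        _ ≤ (d : ℝ) ^ (e * 3) := Real.rpow_le_rpow_of_exponent_le hD1 (by linarith)
        _ = _ := by
            rw [← Real.rpow_natCast, ← Real.rpow_mul hD0.le]
            norm_num)
  rw [hΔ, hρ] at hH
  refine ⟨Pool.Agent.H47.SG.sy R X, rfl, fun _ => rfl, rfl, hyp_mono hH hE hM⟩

end Pool.Agent.H41.SX
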