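import Pool.Agent.H41.SX.Rgx
import Pool.Agent.H91.SF.FIN3
import Pool.Agent.H91.BL.Chn
import Pool.Agent.H47.SF.Sph

/-!
# Smoothed Fatou (MP_8f2e1c_an), sharp form: the deterministic part from the local geometry

`HypMain`, `CrnMain`: the local geometry (helper47). `det_main`: the choice of the constants in helper91's block lemma
(`blo_of`, `win_of`) and in `fin3`.
-/

set_option autoImplicit false

open Finset Filter Topology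

namespace Pool.Agent.H41.SX

open Pool.H70.SF Pool.Agent.H47.SF Pool.Agent.H41.RF

/-- the local geometry -/
def HypMain : Prop :=
  ∀ e : ℝ, 0 < e → e ≤ 1 / 10 → ∃ k0 : ℕ, ∀ n : ℕ, 1 ≤ n → ∀ η σ : ℝ, 0 < η → η ≤ σ → σ ≤ e / 16 →
    ∃ κ1 : ℝ, 0 < κ1 ∧ ∃ d0 : ℕ, ∀ d ≥ d0, ∀ R : ℝ, 1 ≤ R → R ≤ (d : ℝ) ^ κ1 → ∀ X : CV d,
    Pool.Agent.H73.ES.GG R X → NDx ((d : ℝ) ^ e) R X →
    (∀ u, IsU u → ∃ t : ℂ, ‖t‖ ≤ 2 / d ∧ 1 / (2 * (d : ℝ) ^ 3) ≤ ‖Wc X u t‖) → GS n e X →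
    ∃ S : Pool.Agent.H91.BL.Sy UU, S.f = fS X ∧ (∀ u, S.a u = ‖aa X u.val‖) ∧
      S.C = {c | JJ X c.val = 0} ∧
      Pool.Agent.H91.BL.Hyp S ((d : ℝ) ^ η) ((d : ℝ) ^ (e / 2 - 1 / 2)) ((d : ℝ) ^ (-(1 / 2) : ℝ))
        (((d : ℝ) ^ 3236)⁻¹) (d : ℝ) ((d : ℝ) ^ ((49 : ℝ) / 10)) ((d : ℝ) ^ 5) ((d : ℝ) ^ σ)
        ((d : ℝ) ^ (2 * e)) ((d : ℝ) ^ (η + σ)) k0 n

/-- critical points near points with small derivative -/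
def CrnMain : Prop :=
  ∀ e : ℝ, 0 < e → e ≤ 1 / 10 → ∃ κ1 : ℝ, 0 < κ1 ∧ ∃ d0 : ℕ, ∀ d ≥ d0, ∀ R : ℝ, 1 ≤ R →
    R ≤ (d : ℝ) ^ κ1 → ∀ X : CV d, Pool.Agent.H73.ES.GG R X → NDx ((d : ℝ) ^ e) R X →
    (∀ u, IsU u → ∃ t : ℂ, ‖t‖ ≤ 2 / d ∧ 1 / (2 * (d : ℝ) ^ 3) ≤ ‖Wc X u t‖) →
    (∀ c, IsU c → JJ X c = 0 → 1 ≤ f2 X c) →
    ∀ u, IsU u → ∃ c, IsU c ∧ JJ X c = 0 ∧ ‖wd u c‖ ≤ (d : ℝ) ^ 5 / 2 * ‖aa X u‖

theorem GG.ndg {d : ℕ} (hd : 1 ≤ d) {R : ℝ} {X : CV d} (h : Pool.Agent.H73.ES.GG R X) : Ndg X := by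
  intro u hu h0
  have h4 := (h u hu).1
  rw [h0] at h4
  have h5 : Pool.Agent.H73.ES.nn (0 : ℂ × ℂ) = 0 := by
    unfold Pool.Agent.H73.ES.nn n2
    simp
  rw [h5] at h4
  have hD : (0 : ℝ) < d := by exact_mod_cast hd
  have : 0 < (d : ℝ)⁻¹ := inv_pos.2 hD
  linarith

theorem NDx.mono {d : ℕ} (hd : 1 ≤ d) {R e e' : ℝ} (hR : 1 ≤ R) (he : e' ≤ e) {X : CV d}
    (gg : Pool.Agent.H73.ES.GG R X)
    (h : NDx ((d : ℝ) ^ e) R X) : NDx ((d : ℝ) ^ e') R X := by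
  have hD : (1 : ℝ) ≤ d := by exact_mod_cast hd
  have hD0 : (0 : ℝ) < d := by linarith
  have hQ : (d : ℝ) ^ e' ≤ (d : ℝ) ^ e := Real.rpow_le_rpow_of_exponent_le hD he
  have hQ0 : 0 < (d : ℝ) ^ e' := Real.rpow_pos_of_pos hD0 _
  intro u hu h1
  obtain ⟨t, ht, hW⟩ := h u hu (h1.trans_le (pow_le_pow_left₀ hQ0.le hQ 3))
  refine ⟨t, ht.trans_le ?_, hW⟩
  have hν : 0 ≤ nuF X u := Real.sqrt_nonneg _
  have hs : 0 < Real.sqrt d := Real.sqrt_pos.2 hD0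
  exact div_le_div_of_nonneg_left hν (by positivity) (by gcongr)

/-- the orbit in the words of `Sy` -/
theorem P_eq {d : ℕ} (hd : 1 ≤ d) {X : CV d} (lo : ∀ u, IsU u → (d : ℝ)⁻¹ ≤ nuF X u)
    {S : Pool.Agent.H91.BL.Sy UU} (hf : S.f = fS X) (ha : ∀ u, S.a u = ‖aa X u.val‖)
    (c : UU) (l j : ℕ) : Pool.Agent.H91.BL.P S j (S.f^[l] (S.f c)) =
      ∏ i ∈ range j, ‖al X c.val (l + i)‖ := by
  unfold Pool.Agent.H91.BL.P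
  refine Finset.prod_congr rfl fun i _ => ?_
  rw [ha, hf, ← Function.iterate_add_apply, add_comm i l, fS_iter hd lo, fS_coe hd lo]
  unfold al
  rw [ob_eq]

theorem sm1_of {d n n1 : ℕ} {e : ℝ} (hd : 2 ≤ d) (he : 0 ≤ e) (hn : n1 ≤ n) (hn1 : n1 ≤ d) {X : CV d}
    (h : GS n e X) : Pool.Agent.H91.SF.Sm1 n1 ((d : ℝ) ^ 4) X := by
  intro c hc hJ
  have hD : (2 : ℝ) ≤ d := by exact_mod_cast hd
  have hD0 : (0 : ℝ) < d := by linarith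
  have h1 : ∀ l ∈ Ico 1 (n1 + 1), 1 / Ph X c l ≤ (d : ℝ) := by
    intro l hl
    rw [mem_Ico] at hl
    have h2 : (d : ℝ)⁻¹ ≤ Ph X c l := by
      rcases Nat.lt_or_ge l 2 with h3 | h3
      · have h4 : l = 1 := by omega
        subst h4
        have h5 : Ph X c 1 = ‖al X c 0‖ := by
          unfold Ph
          simp
        rw [h5]
        exact h.al c hc hJ 0 (Nat.zero_le _)
      · refine le_trans ?_ (h.ph c hc hJ l h3 (by omega))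
        refine (inv_le_one_of_one_le₀ (by linarith)).trans (Real.one_le_rpow (by linarith) ?_)
        positivity
    rw [one_div]
    exact inv_le_of_inv_le₀ hD0 h2
  calc ∑ l ∈ Ico 1 (n1 + 1), 1 / Ph X c l ≤ (Ico 1 (n1 + 1)).card • (d : ℝ) :=
        Finset.sum_le_card_nsmul _ _ _ h1
    _ = n1 * d := by
        rw [Nat.card_Ico, nsmul_eq_mul]
        norm_num
    _ ≤ d * d := by
        have : (n1 : ℝ) ≤ d := by exact_mod_cast hn1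
        gcongr
    _ ≤ (d : ℝ) ^ 4 := by
        have h3 : (d : ℝ) * d = (d : ℝ) ^ 2 := by ring
        rw [h3]
        exact pow_le_pow_right₀ (by linarith) (by norm_num)

theorem det_small (hH : HypMain) (hC : CrnMain) {e : ℝ} (he : 0 < e) (he1 : e ≤ 1 / 10) :
    ∃ (n n1 N0 : ℕ) (κ1 : ℝ), 0 < κ1 ∧ 1 ≤ n1 ∧ n1 ≤ n ∧ 1000 ≤ N0 ∧
    ∃ d0 : ℕ, ∀ d ≥ d0, ∀ R : ℝ, 1 ≤ R → R ≤ (d : ℝ) ^ κ1 → ∀ v : ℂ × ℂ, n2 v ≤ 2 →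
    ∀ W : Set (CV d), IsOpen W → (∀ Y ∈ W, WelX n n1 e R (((d : ℝ) ^ 5 / 2) ^ 2) v Y) → ∀ X ∈ W,
    Rg ((d : ℝ) ^ 5) X ∧
    (Fail (64 * ((d : ℝ) ^ 200) ^ 2) ((d : ℝ) ^ N0) (1 / 24) X →
      ∃ c k, EvD ((d : ℝ) ^ 5) (64 * ((d : ℝ) ^ 200) ^ 2) (1 / 24) (7 * (1 / 24) ^ 2)
        ((d : ℝ) ^ N0) v X c k) ∧
    (¬ Fail (64 * ((d : ℝ) ^ 200) ^ 2) ((d : ℝ) ^ N0) (1 / 24) X →
      (∀ ε : ℝ, 0 < ε → ∃ w ∈ Metric.ball X ε, Pool.Agent.H79.Par.HypDeg (d := d) w) ∧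
      ∀ c, IsU c → JJ X c = 0 → ∀ B : ℝ, ∃ l0, ∀ l, l0 ≤ l → B < Ph X c l) := by
  obtain ⟨k0, hk⟩ := hH e he he1
  obtain ⟨b, hb⟩ : ∃ b : ℕ, b = 2 * k0 + 20 := ⟨_, rfl⟩
  obtain ⟨σ, hσ⟩ : ∃ σ : ℝ, σ = e / 16 := ⟨_, rfl⟩
  have hσ0 : 0 < σ := by rw [hσ]; positivity
  obtain ⟨w, hw⟩ : ∃ w : ℕ, w = ⌈6490 / e⌉₊ + 1 := ⟨_, rfl⟩
  have hwe : 6490 ≤ e * w := by
    have h1 := Nat.le_ceil (6490 / e)
    rw [div_le_iff₀ he] at h1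
    rw [hw]
    push_cast
    nlinarith
  obtain ⟨B, hB⟩ : ∃ B : ℕ, B = b ^ (2 * w + 2) := ⟨_, rfl⟩
  have hB1 : 1 ≤ B := by
    rw [hB]
    exact Nat.one_le_pow _ _ (by omega)
  have hB1' : (1 : ℝ) ≤ B := by exact_mod_cast hB1
  obtain ⟨η, hη⟩ : ∃ η : ℝ, η = σ / B := ⟨_, rfl⟩
  have hη0 : 0 < η := by
    rw [hη]
    positivity
  have hησ : η ≤ σ := by
    rw [hη]
    exact div_le_self hσ0.le hB1'
  have hηB : η * B = σ := by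
    rw [hη]
    field_simp
  obtain ⟨nf, hnf⟩ : ∃ nf : ℕ, nf = ⌈9730 / e⌉₊ + 2 := ⟨_, rfl⟩
  have hnfe : 9730 ≤ e * nf := by
    have h1 := Nat.le_ceil (9730 / e)
    rw [div_le_iff₀ he] at h1
    rw [hnf]
    push_cast
    nlinarith
  obtain ⟨N, hN⟩ : ∃ N : ℕ, N = ⌈3242 / η⌉₊ + 1 := ⟨_, rfl⟩
  have hNη : 3242 ≤ η * N := by
    have h1 := Nat.le_ceil (3242 / η)
    rw [div_le_iff₀ hη0] at h1
    rw [hN]
    push_cast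
    nlinarith
  obtain ⟨mw, hmw⟩ : ∃ mw : ℕ, mw = 2 * w * (nf + 1) + 1 := ⟨_, rfl⟩
  have hmw0 : (0 : ℝ) < mw := by
    rw [hmw]
    positivity
  obtain ⟨m0, hm0⟩ : ∃ m0 : ℕ, m0 = N * mw := ⟨_, rfl⟩
  obtain ⟨κ', hκ'⟩ : ∃ κ' : ℝ, κ' = η / mw := ⟨_, rfl⟩
  have hκ'0 : 0 < κ' := by
    rw [hκ']
    positivity
  have hκm : κ' * mw = η := by
    rw [hκ']
    field_simp
  obtain ⟨n0, n1, N0, hn1, hn10, hN0, d1, hfin⟩ := Pool.Agent.H91.SF.fin3 κ' hκ'0 m0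
  obtain ⟨n, hn⟩ : ∃ n : ℕ, n = max n0 (nf + 2) := ⟨_, rfl⟩
  have hnn0 : n0 ≤ n := by
    rw [hn]
    exact le_max_left _ _
  have hnnf : nf + 2 ≤ n := by
    rw [hn]
    exact le_max_right _ _
  obtain ⟨κ1, hκ1, d2, hhyp⟩ := hk n (by omega) η σ hη0 hησ (by rw [hσ])
  obtain ⟨κ2, hκ2, d3, hcrn⟩ := hC e he he1
  obtain ⟨κ3, hκ3⟩ : ∃ κ3 : ℝ, κ3 = min (min κ1 κ2) (1 / 2) := ⟨_, rfl⟩
  have h31 : κ3 ≤ κ1 := by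
    rw [hκ3]
    exact (min_le_left _ _).trans (min_le_left _ _)
  have h32 : κ3 ≤ κ2 := by
    rw [hκ3]
    exact (min_le_left _ _).trans (min_le_right _ _)
  have h33 : κ3 ≤ 1 / 2 := by
    rw [hκ3]
    exact min_le_right _ _
  refine ⟨n, n1, N0, κ3, ?_, hn1, by omega, hN0, max (max d1 d2) (max (max d3 n1) (max 100 (2 ^ (m0 + 4)))),
    fun d hd R hR1 hR v hv W hW hWX X hX => ?_⟩
  · rw [hκ3]
    exact lt_min (lt_min hκ1 hκ2) (by norm_num)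
  have hdd1 : d1 ≤ d := by omega
  have hdd2 : d2 ≤ d := by omega
  have hdd3 : d3 ≤ d := by omega
  have hdn1 : n1 ≤ d := by omega
  have hd100 : 100 ≤ d := by omega
  have hdK : 2 ^ (m0 + 4) ≤ d := by omega
  have hD100 : (100 : ℝ) ≤ d := by exact_mod_cast hd100
  have hDK : (2 : ℝ) ^ (m0 + 4) ≤ d := by exact_mod_cast hdK
  have hD1 : (1 : ℝ) ≤ d := by linarith
  have hD0 : (0 : ℝ) < d := by linarith
  have hmono : ∀ {x y : ℝ}, x ≤ y → (d : ℝ) ^ x ≤ (d : ℝ) ^ y := fun h =>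
    Real.rpow_le_rpow_of_exponent_le hD1 h
  have hnat : ∀ k : ℕ, (d : ℝ) ^ k = (d : ℝ) ^ (k : ℝ) := fun k => (Real.rpow_natCast _ _).symm
  have hadd : ∀ x y : ℝ, (d : ℝ) ^ x * (d : ℝ) ^ y = (d : ℝ) ^ (x + y) := fun x y =>
    (Real.rpow_add hD0 x y).symm
  have hpow : ∀ (x : ℝ) (k : ℕ), ((d : ℝ) ^ x) ^ k = (d : ℝ) ^ (x * k) := fun x k => by
    rw [Real.rpow_mul hD0.le, Real.rpow_natCast]
  have hθ : ((d : ℝ) ^ 3236)⁻¹ = (d : ℝ) ^ (-3236 : ℝ) := by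
    rw [Real.rpow_neg hD0.le, hnat]
    norm_num
  have hθ2 : (((d : ℝ) ^ 3236)⁻¹) ^ 2 = (d : ℝ) ^ (-6472 : ℝ) := by
    rw [hθ, hpow]
    norm_num
  have h5 : (d : ℝ) ^ 5 = (d : ℝ) ^ (5 : ℝ) := by
    rw [hnat]
    norm_num
  have h2d : (2 : ℝ) ≤ (d : ℝ) ^ (1 : ℝ) := by
    rw [Real.rpow_one]
    linarith
  have hR2 : R ^ 2 ≤ d := by
    have h6 : R ≤ (d : ℝ) ^ ((1 : ℝ) / 2) := hR.trans (hmono h33)
    calc R ^ 2 ≤ ((d : ℝ) ^ ((1 : ℝ) / 2)) ^ 2 := pow_le_pow_left₀ (by linarith) h6 2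
      _ = d := by
        rw [hpow]
        norm_num
  -- everything for one pair
  have key : ∀ Y ∈ W, Rg ((d : ℝ) ^ 5 / 2) Y ∧ Pool.Agent.H91.SF.Win n0 ((d : ℝ) ^ 10) ((d : ℝ) ^ κ') Y ∧
      Pool.Agent.H91.SF.Sm1 n1 ((d : ℝ) ^ 4) Y ∧
      Pool.Agent.H91.SF.Blo m0 (((d : ℝ) ^ 3236)⁻¹) ((d : ℝ) ^ 5) (2 ^ (m0 + 4)) Y ∧ Trv v n1 Y := by
    intro Y hY
    have hw' := hWX Y hY
    have hrg : Rg ((d : ℝ) ^ 5 / 2) Y := rgx hd100 hR1 hR2 hw'.gg hw'.bn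
      (hcrn d hdd3 R hR1 (hR.trans (hmono h32)) Y hw'.gg hw'.nd hw'.wl hw'.gs.f2)
    obtain ⟨S, hf, ha, hSC, H⟩ := hhyp d hdd2 R hR1 (hR.trans (hmono h31)) Y hw'.gg hw'.nd hw'.wl hw'.gs
    have hlo : ∀ u, IsU u → (d : ℝ)⁻¹ ≤ nuF Y u := fun u hu => (hw'.gg u hu).1
    have hSm : Pool.Agent.H91.BL.Sc ((d : ℝ) ^ η) b (2 * w + 2) ≤ (d : ℝ) ^ σ := by
      unfold Pool.Agent.H91.BL.Sc
      rw [hpow, ← hB, hηB]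
    have hΓS : (d : ℝ) ^ σ ≤ (d : ℝ) ^ (2 * e) := hmono (by rw [hσ]; linarith)
    have hWW : ((d : ℝ) ^ σ) ^ (w + 1) * ((d : ℝ) ^ 5) ^ 2 <
        ((d : ℝ) ^ (2 * e)) ^ w * (((d : ℝ) ^ 3236)⁻¹) ^ 2 := by
      rw [hθ2, hpow, hpow, h5, hpow, hadd, hadd]
      apply Real.rpow_lt_rpow_of_exponent_lt (by linarith)
      push_cast
      rw [hσ]
      nlinarith
    have hA : ∀ c ∈ S.C, ∃ j ≤ nf, (d : ℝ) ^ (9730 : ℝ) ≤ Pool.Agent.H91.BL.P S j (S.f c) := by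
      intro c hc
      refine ⟨nf, le_rfl, ?_⟩
      have h6 := P_eq (by omega : 1 ≤ d) hlo hf ha c 0 nf
      rw [Function.iterate_zero, id_eq] at h6
      simp only [zero_add] at h6
      rw [h6]
      rw [hSC] at hc
      refine le_trans ?_ (hw'.gs.ph c.val c.property hc nf (by omega) (by omega))
      exact hmono hnfe
    have hAK : 2 * (d : ℝ) ^ 5 * (d : ℝ) ^ σ * (d : ℝ) ^ (3250 : ℝ) ≤
        (((d : ℝ) ^ 3236)⁻¹) ^ 2 * (d : ℝ) ^ (9730 : ℝ) := by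
      rw [hθ2, h5, hadd]
      calc 2 * (d : ℝ) ^ (5 : ℝ) * (d : ℝ) ^ σ * (d : ℝ) ^ (3250 : ℝ) ≤
            (d : ℝ) ^ (1 : ℝ) * (d : ℝ) ^ (5 : ℝ) * (d : ℝ) ^ σ * (d : ℝ) ^ (3250 : ℝ) := by gcongr
        _ = (d : ℝ) ^ (1 + 5 + σ + 3250) := by rw [hadd, hadd, hadd]
        _ ≤ (d : ℝ) ^ (-6472 + 9730 : ℝ) := hmono (by rw [hσ]; linarith)
    have hNN : (d : ℝ) ^ 5 * 2 ^ (m0 + 4) ≤ ((d : ℝ) ^ η) ^ N * ((d : ℝ) ^ 3236)⁻¹ := by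
      rw [hθ, h5, hpow, hadd]
      calc (d : ℝ) ^ (5 : ℝ) * 2 ^ (m0 + 4) ≤ (d : ℝ) ^ (5 : ℝ) * (d : ℝ) ^ (1 : ℝ) := by
            rw [Real.rpow_one]
            gcongr
        _ = (d : ℝ) ^ (5 + 1 : ℝ) := hadd _ _
        _ ≤ (d : ℝ) ^ (η * N + -3236) := hmono (by linarith)
    have hKK : (d : ℝ) ^ 5 * 2 ^ (m0 + 4) ≤ (d : ℝ) ^ (3250 : ℝ) * ((d : ℝ) ^ 3236)⁻¹ := by
      rw [hθ, h5, hadd]
      calc (d : ℝ) ^ (5 : ℝ) * 2 ^ (m0 + 4) ≤ (d : ℝ) ^ (5 : ℝ) * (d : ℝ) ^ (1 : ℝ) := by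
            rw [Real.rpow_one]
            gcongr
        _ = (d : ℝ) ^ (5 + 1 : ℝ) := hadd _ _
        _ ≤ (d : ℝ) ^ (3250 + -3236 : ℝ) := hmono (by norm_num)
    have hE : (d : ℝ) ^ ((49 : ℝ) / 10) * (d : ℝ) ^ σ ≤ (d : ℝ) ^ 5 := by
      rw [h5, hadd]
      exact hmono (by rw [hσ]; linarith)
    have hblo := Pool.Agent.H91.BL.blo_of (W := w) (N := N) (K := 2 ^ (m0 + 4)) (K1 := (d : ℝ) ^ (3250 : ℝ))
      (A := (d : ℝ) ^ (9730 : ℝ)) (E := (d : ℝ) ^ 5) (nf := nf) (b := b) H (by omega) hSm hΓS hWW hnnf hA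
      hAK (by omega) hNN hKK hE
    have hK1 : (d : ℝ) ^ η * (d : ℝ) ^ ((49 : ℝ) / 10) ≤ (d : ℝ) ^ (3250 : ℝ) := by
      rw [hadd]
      exact hmono (by rw [hσ] at hησ; linarith)
    have hκ1' : 1 ≤ (d : ℝ) ^ κ' := Real.one_le_rpow hD1 hκ'0.le
    have hκΛ : ((d : ℝ) ^ κ') ^ (2 * w * (nf + 1) + 1) ≤ (d : ℝ) ^ η := by
      rw [← hmw, hpow, hκm]
    have hE2 : 2 * (d : ℝ) ^ η * (d : ℝ) ^ 2 * (d : ℝ) ^ ((49 : ℝ) / 10) * (d : ℝ) ^ σ *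
        (d : ℝ) ^ (-(1 / 2) : ℝ) ≤ (d : ℝ) ^ 10 := by
      have h6 : (d : ℝ) ^ 2 = (d : ℝ) ^ (2 : ℝ) := by
        rw [hnat]
        norm_num
      have h7 : (d : ℝ) ^ 10 = (d : ℝ) ^ (10 : ℝ) := by
        rw [hnat]
        norm_num
      rw [h6, h7]
      calc 2 * (d : ℝ) ^ η * (d : ℝ) ^ (2 : ℝ) * (d : ℝ) ^ ((49 : ℝ) / 10) * (d : ℝ) ^ σ *
            (d : ℝ) ^ (-(1 / 2) : ℝ) ≤ (d : ℝ) ^ (1 : ℝ) * (d : ℝ) ^ η * (d : ℝ) ^ (2 : ℝ) *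
              (d : ℝ) ^ ((49 : ℝ) / 10) * (d : ℝ) ^ σ * (d : ℝ) ^ (-(1 / 2) : ℝ) := by gcongr
        _ = (d : ℝ) ^ (1 + η + 2 + 49 / 10 + σ + -(1 / 2)) := by rw [hadd, hadd, hadd, hadd, hadd]
        _ ≤ (d : ℝ) ^ (10 : ℝ) := hmono (by rw [hσ] at hησ ⊢; linarith)
    have hwin := Pool.Agent.H91.BL.win_of (W := w) (K1 := (d : ℝ) ^ (3250 : ℝ))
      (A := (d : ℝ) ^ (9730 : ℝ)) (E := (d : ℝ) ^ 10) (nf := nf) (b := b) (κ := (d : ℝ) ^ κ') H (by omega)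
      hSm hΓS hWW hnnf hA hK1 hAK hκ1' hκΛ hE2
    refine ⟨hrg, ⟨fun c hc hJ l hl => ?_, fun c hc hJ l j hlj => ?_⟩,
      sm1_of (by omega) he.le (by omega) hdn1 hw'.gs, ?_, hw'.trv⟩
    · refine le_trans ?_ (hw'.gs.al c hc hJ l (by omega))
      rw [one_div]
      refine inv_anti₀ hD0 ?_
      calc (d : ℝ) = (d : ℝ) ^ 1 := (pow_one _).symm
        _ ≤ (d : ℝ) ^ 10 := pow_le_pow_right₀ hD1 (by norm_num)
    · have h6 := hwin ⟨c, hc⟩ (by rw [hSC]; exact hJ) l j (by omega)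
      rwa [P_eq (by omega : 1 ≤ d) hlo hf ha] at h6
    · intro u hu
      obtain ⟨m, h6, h7, h8, h9⟩ := hblo u (by rw [ha]; exact hu)
      refine ⟨m, h6, by rw [hm0, hmw]; exact h7, fun i hi => ?_, ?_⟩
      · have h10 := h8 i hi
        rw [ha, hf] at h10
        exact h10
      · have h11 : Pool.Agent.H91.BL.P S m u = ∏ i ∈ range m, ‖aa Y ((fS Y)^[i] u).val‖ := by
          unfold Pool.Agent.H91.BL.P
          refine Finset.prod_congr rfl fun i _ => ?_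
          rw [ha, hf]
        rw [h11, ha, hf] at h9
        exact h9
  obtain ⟨h6, h7⟩ := hfin d hdd1 v hv W hW key X hX
  have hd5 : (0 : ℝ) < (d : ℝ) ^ 5 / 2 := by positivity
  exact ⟨(key X hX).1.mono hd5 (by linarith), h6, h7⟩

/-- **The deterministic part.** -/
theorem det_main (hH : HypMain) (hC : CrnMain) : DetMain := by
  intro e he
  obtain ⟨e', he'⟩ : ∃ e' : ℝ, e' = min e (1 / 10) := ⟨_, rfl⟩
  have he'0 : 0 < e' := by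
    rw [he']
    exact lt_min he (by norm_num)
  have he'1 : e' ≤ 1 / 10 := by
    rw [he']
    exact min_le_right _ _
  have hee : e' ≤ e := by
    rw [he']
    exact min_le_left _ _
  obtain ⟨n, n1, N0, κ1, hκ1, hn1, hn, hN0, d0, h⟩ := det_small hH hC he'0 he'1
  refine ⟨n, n1, N0, κ1, hκ1, hn1, hn, hN0, max d0 1, fun d hd R hR1 hR v hv W hW hWX => ?_⟩
  have hd1 : 1 ≤ d := (le_max_right _ _).trans hd
  refine h d ((le_max_left _ _).trans hd) R hR1 hR v hv W hW fun Y hY => ?_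
  have hY' := hWX Y hY
  exact ⟨hY'.gg, hY'.bn, hY'.gs.mono hd1 le_rfl hee, NDx.mono hd1 hR1 hee hY'.gg hY'.nd, hY'.wl,
    hY'.ndg, hY'.trv⟩

end Pool.Agent.H41.SX
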