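import Mathlib
import Pool.Agent.H41.SX.Core
import Pool.Agent.H32.RB.Main

/-!
# Rational maps of degree `d` which are not limits of hyperbolic maps: proportion at most `d^(-1+ε)`, around every centre
-/

set_option autoImplicit false

namespace Pool.Agent.H41.SX.Res

open Polynomial Filter Topology MeasureTheory

/-- `f` is the rational map `P/Q` on the sphere. -/
def IsMap (f : OnePoint ℂ → OnePoint ℂ) (P Q : Polynomial ℂ) : Prop :=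
  Continuous f ∧
    ∀ z : ℂ, Q.eval z ≠ 0 → f (OnePoint.some z) = OnePoint.some (P.eval z / Q.eval z)

/-- `c` is a critical point of `f`. -/
def IsCritical (f : OnePoint ℂ → OnePoint ℂ) (c : OnePoint ℂ) : Prop :=
  ¬ ∃ U ∈ nhds c, Set.InjOn f U

/-- The orbit of `c` is attracted to an attracting cycle (words of the frozen statement
`S05373`). -/
def ToAttracting (f : OnePoint ℂ → OnePoint ℂ) (c : OnePoint ℂ) : Prop :=
  ∃ z : OnePoint ℂ, ∃ n : ℕ, 0 < n ∧ f^[n] z = z ∧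
    (∃ U ∈ nhds z, ∀ w ∈ U,
      Filter.Tendsto (fun k : ℕ => f^[n * k] w) Filter.atTop (nhds z)) ∧
    Filter.Tendsto (fun k : ℕ => f^[n * k] c) Filter.atTop (nhds z)

/-- The rational map `P/Q` is hyperbolic, in the words of the frozen statement `S05373`: every
critical point is attracted to an attracting periodic cycle. -/
def IsHyperbolic (P Q : Polynomial ℂ) : Prop :=
  ∃ f : OnePoint ℂ → OnePoint ℂ, IsMap f P Q ∧ ∀ c : OnePoint ℂ, IsCritical f c → ToAttracting f c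

/-- `P/Q` is a limit of hyperbolic rational maps of degree `d` -/
def IsLimitOfHyperbolic (d : ℕ) (P Q : Polynomial ℂ) : Prop :=
  ∀ ε : ℝ, 0 < ε → ∃ A B : Polynomial ℂ, IsCoprime A B ∧ max A.natDegree B.natDegree = d ∧
    (∀ i : ℕ, ‖A.coeff i - P.coeff i‖ < ε ∧ ‖B.coeff i - Q.coeff i‖ < ε) ∧ IsHyperbolic A B

/-- no critical point of `P/Q` is attracted to an attracting cycle -/
def NoneAttracted (P Q : Polynomial ℂ) : Prop :=
  ∃ f : OnePoint ℂ → OnePoint ℂ, IsMap f P Q ∧ ∀ c : OnePoint ℂ, IsCritical f c → ¬ ToAttracting f c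

/-- The standard complex Gaussian measure, with density `exp (-|z|^2) / π`. -/
noncomputable def gaussian : Measure ℂ :=
  volume.withDensity (fun z => ENNReal.ofReal (Real.exp (-‖z‖ ^ 2) / Real.pi))

/-- The law of `2 (d + 1)` independent standard complex Gaussian variables. -/
noncomputable def noise (d : ℕ) : Measure ((Fin (d + 1) → ℂ) × (Fin (d + 1) → ℂ)) :=
  (Measure.pi fun _ => gaussian).prod (Measure.pi fun _ => gaussian)

/-- The `SU(2)` polynomial `∑ √(binom d k) ξ_k z^k`. -/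
noncomputable def su2 {d : ℕ} (ξ : Fin (d + 1) → ℂ) : Polynomial ℂ :=
  ∑ k : Fin (d + 1), C ((√(d.choose k : ℝ) : ℂ) * ξ k) * X ^ (k : ℕ)

/-- The weighted sup norm of `P` is at most `1`: `|P(z)| ≤ (1 + |z|^2)^(d/2)`. -/
def WeightedLeOne (d : ℕ) (P : Polynomial ℂ) : Prop :=
  P.natDegree ≤ d ∧ ∀ z : ℂ, ‖P.eval z‖ ^ 2 ≤ (1 + ‖z‖ ^ 2) ^ d

theorem ctr {d : ℕ} {P : Polynomial ℂ} (h : WeightedLeOne d P) {z : ℂ × ℂ} (hz : Pool.H70.SF.IsU z) :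
    ‖Pool.H70.SF.hev (fun i : Fin (d + 1) => P.coeff i) z‖ ≤ 1 := by
  have key : ∀ w : ℂ × ℂ, w.2 ≠ 0 →
      ‖Pool.H70.SF.hev (fun i : Fin (d + 1) => P.coeff i) w‖ ^ 2 ≤ (‖w.1‖ ^ 2 + ‖w.2‖ ^ 2) ^ d := by
    intro w hw
    have h1 : Pool.H70.SF.hev (fun i : Fin (d + 1) => P.coeff i) w = w.2 ^ d * P.eval (w.1 / w.2) := by
      unfold Pool.H70.SF.hev
      rw [P.eval_eq_sum_range' (Nat.lt_succ_of_le h.1), Finset.mul_sum,
        ← Fin.sum_univ_eq_sum_range (fun k => w.2 ^ d * (P.coeff k * (w.1 / w.2) ^ k)) (d + 1)]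
      refine Finset.sum_congr rfl fun k _ => ?_
      have hk : (k : ℕ) ≤ d := Nat.lt_succ_iff.1 k.2
      have h2 : w.2 ^ d = w.2 ^ (d - (k : ℕ)) * w.2 ^ (k : ℕ) := by
        rw [← pow_add, Nat.sub_add_cancel hk]
      rw [h2, div_pow]
      field_simp
    rw [h1, norm_mul, mul_pow, norm_pow]
    have h3 := h.2 (w.1 / w.2)
    have h4 : 0 < ‖w.2‖ := norm_pos_iff.2 hw
    calc (‖w.2‖ ^ d) ^ 2 * ‖P.eval (w.1 / w.2)‖ ^ 2
        ≤ (‖w.2‖ ^ d) ^ 2 * (1 + ‖w.1 / w.2‖ ^ 2) ^ d := by gcongr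
      _ = (‖w.1‖ ^ 2 + ‖w.2‖ ^ 2) ^ d := by
          rw [← pow_mul, mul_comm d 2, pow_mul, ← mul_pow, norm_div, div_pow]
          congr 1
          field_simp
          ring
  have hz' : ‖z.1‖ ^ 2 + ‖z.2‖ ^ 2 = 1 := hz
  by_cases h2 : z.2 = 0
  · -- limit
    have hc : Continuous fun s : ℂ =>
        ‖Pool.H70.SF.hev (fun i : Fin (d + 1) => P.coeff i) (z.1, s)‖ ^ 2 := by
      unfold Pool.H70.SF.hev
      fun_prop
    have hc2 : Continuous fun s : ℂ => (‖z.1‖ ^ 2 + ‖s‖ ^ 2) ^ d := by fun_prop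
    have hcl : IsClosed {s : ℂ | ‖Pool.H70.SF.hev (fun i : Fin (d + 1) => P.coeff i) (z.1, s)‖ ^ 2 ≤
        (‖z.1‖ ^ 2 + ‖s‖ ^ 2) ^ d} := isClosed_le hc hc2
    have hd : Dense {s : ℂ | s ≠ 0} := dense_compl_singleton 0
    have h3 : (0 : ℂ) ∈ {s : ℂ | ‖Pool.H70.SF.hev (fun i : Fin (d + 1) => P.coeff i) (z.1, s)‖ ^ 2 ≤
        (‖z.1‖ ^ 2 + ‖s‖ ^ 2) ^ d} := by
      refine hcl.closure_subset_iff.2 ?_ (hd 0)
      intro s hs
      exact key (z.1, s) hs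
    have h4 : z = (z.1, 0) := Prod.ext rfl h2
    have h5 : ‖Pool.H70.SF.hev (fun i : Fin (d + 1) => P.coeff i) z‖ ^ 2 ≤ 1 := by
      have h6 : ‖Pool.H70.SF.hev (fun i : Fin (d + 1) => P.coeff i) (z.1, 0)‖ ^ 2 ≤
        (‖z.1‖ ^ 2 + ‖(0 : ℂ)‖ ^ 2) ^ d := h3
      rw [← h4] at h6
      rw [h2] at hz'
      rw [hz', one_pow] at h6
      exact h6
    exact (sq_le_one_iff₀ (norm_nonneg _)).1 h5
  · have h5 := key z h2
    rw [hz', one_pow] at h5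
    exact (sq_le_one_iff₀ (norm_nonneg _)).1 h5

/-- the case `τ ≤ 1`, `ε ≤ 1` -/
theorem aux (hG : Pool.Agent.H41.SX.GsMain) (hD : Pool.Agent.H41.SX.DetMain) {ε0 : ℝ} (hε0 : 0 < ε0)
    (hε1 : ε0 ≤ 1) : ∃ C c : ℝ, 0 < c ∧ ∀ d : ℕ, 2 ≤ d → ∀ P0 Q0 : Polynomial ℂ,
    WeightedLeOne d P0 → WeightedLeOne d Q0 → ∀ τ : ℝ, (d : ℝ) ^ (-c) ≤ τ → τ ≤ 1 →
    noise d {ξ | ¬ (IsCoprime (P0 + Polynomial.C (τ : ℂ) * su2 ξ.1) (Q0 + Polynomial.C (τ : ℂ) * su2 ξ.2) ∧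
      max (P0 + Polynomial.C (τ : ℂ) * su2 ξ.1).natDegree
        (Q0 + Polynomial.C (τ : ℂ) * su2 ξ.2).natDegree = d ∧
      IsLimitOfHyperbolic d (P0 + Polynomial.C (τ : ℂ) * su2 ξ.1)
        (Q0 + Polynomial.C (τ : ℂ) * su2 ξ.2) ∧
      NoneAttracted (P0 + Polynomial.C (τ : ℂ) * su2 ξ.1)
        (Q0 + Polynomial.C (τ : ℂ) * su2 ξ.2))} ≤ ENNReal.ofReal (C * (d : ℝ) ^ (-1 + ε0)) := by
  obtain ⟨C, c, hc, H⟩ := Pool.Agent.H41.SX.core hG hD hε0 hε1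
  refine ⟨C, c, hc, fun d hd P0 Q0 hP hQ τ hτ hτ1 => ?_⟩
  obtain ⟨X0, hX0⟩ : ∃ X0 : Pool.H70.SF.CV d,
      X0 = ((fun i : Fin (d + 1) => P0.coeff i), (fun i : Fin (d + 1) => Q0.coeff i)) := ⟨_, rfl⟩
  have hctr : Pool.Agent.H41.RF.Ctr X0 := by
    intro z hz
    rw [hX0]
    exact ⟨ctr hP hz, ctr hQ hz⟩
  have h1 := H d hd X0 hctr τ hτ hτ1
  refine le_trans (measure_mono ?_) h1
  intro ξ hξ hf
  apply hξ
  clear hξ
  have hpol : ∀ (P : Polynomial ℂ) (ζ : Fin (d + 1) → ℂ) (u : Fin (d + 1) → ℂ), P.natDegree ≤ d →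
      u = (fun k : Fin (d + 1) => P.coeff k + (τ : ℂ) * ((√(d.choose k : ℝ) : ℂ) * ζ k)) →
      Pool.Agent.H79.Eul.pol u = P + Polynomial.C (τ : ℂ) * su2 ζ := by
    intro P ζ u hP hu
    have h2 : Pool.Agent.H79.Eul.pol (fun i : Fin (d + 1) => P.coeff i) = P :=
      Pool.Agent.H79.Eul.pol_cf hP
    conv_rhs => rw [← h2]
    unfold Pool.Agent.H79.Eul.pol su2
    rw [Finset.mul_sum, ← Finset.sum_add_distrib, hu]
    refine Finset.sum_congr rfl fun k _ => ?_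
    rw [Polynomial.C_add, Polynomial.C_mul, add_mul, mul_assoc]
  have e1 : Pool.Agent.H79.Eul.pol (Pool.Agent.H41.RF.XG X0 τ ξ).1 =
      P0 + Polynomial.C (τ : ℂ) * su2 ξ.1 := by
    refine hpol P0 ξ.1 _ hP.1 ?_
    rw [hX0]
    rfl
  have e2 : Pool.Agent.H79.Eul.pol (Pool.Agent.H41.RF.XG X0 τ ξ).2 =
      Q0 + Polynomial.C (τ : ℂ) * su2 ξ.2 := by
    refine hpol Q0 ξ.2 _ hQ.1 ?_
    rw [hX0]
    rfl
  obtain ⟨f1, f2, f3, f4⟩ := hf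
  rw [e1, e2] at f1 f2
  have hdeg : 1 ≤ max (P0 + Polynomial.C (τ : ℂ) * su2 ξ.1).natDegree
      (Q0 + Polynomial.C (τ : ℂ) * su2 ξ.2).natDegree := by rw [f2]; omega
  have hB0 : Q0 + Polynomial.C (τ : ℂ) * su2 ξ.2 ≠ 0 :=
    Pool.Agent.H32.BT.den_ne_zero f1 (by omega)
  refine ⟨f1, f2, fun ε hε => ?_, ?_⟩
  · obtain ⟨w, hw1, hw2, hw3, hw4⟩ := f3 ε hε
    refine ⟨Pool.Agent.H79.Eul.pol w.1, Pool.Agent.H79.Eul.pol w.2, hw2, hw3, fun i => ?_, ?_⟩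
    · have h0 : ∀ (u u' : Fin (d + 1) → ℂ), ‖u - u'‖ < ε →
          ‖(Pool.Agent.H79.Eul.pol u).coeff i - (Pool.Agent.H79.Eul.pol u').coeff i‖ < ε := by
        intro u u' h
        by_cases hi : i < d + 1
        · have h1 := Pool.Agent.H79.Eul.pol_coeff u ⟨i, hi⟩
          have h2 := Pool.Agent.H79.Eul.pol_coeff u' ⟨i, hi⟩
          simp only at h1 h2
          rw [h1, h2]
          exact (norm_le_pi_norm (u - u') ⟨i, hi⟩).trans_lt h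
        · rw [coeff_eq_zero_of_natDegree_lt, coeff_eq_zero_of_natDegree_lt, sub_zero, norm_zero]
          · exact hε
          · have := Pool.Agent.H79.Eul.pol_deg u'
            omega
          · have := Pool.Agent.H79.Eul.pol_deg u
            omega
      rw [Metric.mem_ball, dist_eq_norm] at hw1
      have h1 : ‖(w - Pool.Agent.H41.RF.XG X0 τ ξ).1‖ < ε := (norm_fst_le _).trans_lt hw1
      have h2 : ‖(w - Pool.Agent.H41.RF.XG X0 τ ξ).2‖ < ε := (norm_snd_le _).trans_lt hw1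
      refine ⟨?_, ?_⟩
      · have := h0 w.1 (Pool.Agent.H41.RF.XG X0 τ ξ).1 h1
        rw [e1] at this
        exact this
      · have := h0 w.2 (Pool.Agent.H41.RF.XG X0 τ ξ).2 h2
        rw [e2] at this
        exact this
    · obtain ⟨g, hg1, hg2, hg3⟩ := (Pool.Agent.H32.BT.hyp_iff hw2 (by rw [hw3]; omega)).2 hw4
      exact ⟨g, ⟨hg1, hg2⟩, hg3⟩
  · refine ⟨Pool.Agent.H44.Fatou.rat (P0 + Polynomial.C (τ : ℂ) * su2 ξ.1)
      (Q0 + Polynomial.C (τ : ℂ) * su2 ξ.2),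
      ⟨Pool.Agent.H44.Fatou.rat_continuous f1, fun z hz => ?_⟩, fun c hc hatt => ?_⟩
    · exact Pool.Agent.H44.Fatou.rat_coe_of_ne hz
    · have hR : Pool.Agent.H79.Par.Rf (d := d) (Pool.Agent.H41.RF.XG X0 τ ξ) =
          Pool.Agent.H44.Fatou.rat (P0 + Polynomial.C (τ : ℂ) * su2 ξ.1)
            (Q0 + Polynomial.C (τ : ℂ) * su2 ξ.2) := by
        unfold Pool.Agent.H79.Par.Rf
        rw [e1, e2]
      refine f4 c (by rw [hR]; exact hc) ?_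
      rw [hR]
      obtain ⟨z, n, h1, h2, h3, h4⟩ := hatt
      exact ⟨z, n, ⟨h1, h2, h3⟩, h4⟩

theorem map_scale {f : OnePoint ℂ → OnePoint ℂ} {P Q : Polynomial ℂ} {t : ℂ} (ht : t ≠ 0)
    (h : IsMap f P Q) : IsMap f (Polynomial.C t * P) (Polynomial.C t * Q) := by
  refine ⟨h.1, fun z hz => ?_⟩
  rw [eval_mul, eval_C] at hz
  rw [h.2 z (right_ne_zero_of_mul hz), eval_mul, eval_mul, eval_C, mul_div_mul_left _ _ ht]

theorem coprime_scale {P Q : Polynomial ℂ} {t : ℂ} (ht : t ≠ 0) (h : IsCoprime P Q) :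
    IsCoprime (Polynomial.C t * P) (Polynomial.C t * Q) := by
  have hu : IsUnit (Polynomial.C t) := isUnit_C.2 (isUnit_iff_ne_zero.2 ht)
  exact (isCoprime_mul_unit_left hu P Q).2 h

/-- the case `ε ≤ 1` -/
theorem aux2 (hG : Pool.Agent.H41.SX.GsMain) (hD : Pool.Agent.H41.SX.DetMain) {ε0 : ℝ} (hε0 : 0 < ε0)
    (hε1 : ε0 ≤ 1) : ∃ C c : ℝ, 0 < c ∧ ∀ d : ℕ, 2 ≤ d → ∀ P0 Q0 : Polynomial ℂ,
    WeightedLeOne d P0 → WeightedLeOne d Q0 → ∀ τ : ℝ, (d : ℝ) ^ (-c) ≤ τ →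
    noise d {ξ | ¬ (IsCoprime (P0 + Polynomial.C (τ : ℂ) * su2 ξ.1) (Q0 + Polynomial.C (τ : ℂ) * su2 ξ.2) ∧
      max (P0 + Polynomial.C (τ : ℂ) * su2 ξ.1).natDegree
        (Q0 + Polynomial.C (τ : ℂ) * su2 ξ.2).natDegree = d ∧
      IsLimitOfHyperbolic d (P0 + Polynomial.C (τ : ℂ) * su2 ξ.1)
        (Q0 + Polynomial.C (τ : ℂ) * su2 ξ.2) ∧
      NoneAttracted (P0 + Polynomial.C (τ : ℂ) * su2 ξ.1)
        (Q0 + Polynomial.C (τ : ℂ) * su2 ξ.2))} ≤ ENNReal.ofReal (C * (d : ℝ) ^ (-1 + ε0)) := by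
  obtain ⟨C, c, hc, H⟩ := aux hG hD hε0 hε1
  refine ⟨C, c, hc, fun d hd P0 Q0 hP hQ τ hτ => ?_⟩
  by_cases hτ1 : τ ≤ 1
  · exact H d hd P0 Q0 hP hQ τ hτ hτ1
  rw [not_le] at hτ1
  have hτ0 : 0 < τ := by linarith
  have ht : (τ : ℂ) ≠ 0 := by exact_mod_cast hτ0.ne'
  have hw : ∀ P : Polynomial ℂ, WeightedLeOne d P →
      WeightedLeOne d (Polynomial.C ((τ⁻¹ : ℝ) : ℂ) * P) := by
    intro P h
    refine ⟨(natDegree_C_mul_le _ _).trans h.1, fun z => ?_⟩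
    rw [eval_mul, eval_C, norm_mul, mul_pow, Complex.norm_real, Real.norm_eq_abs, sq_abs]
    have h1 : (τ⁻¹) ^ 2 ≤ 1 := pow_le_one₀ (inv_nonneg.2 hτ0.le) (inv_le_one_of_one_le₀ hτ1.le)
    calc (τ⁻¹) ^ 2 * ‖P.eval z‖ ^ 2 ≤ 1 * ‖P.eval z‖ ^ 2 := by gcongr
      _ ≤ (1 + ‖z‖ ^ 2) ^ d := by rw [one_mul]; exact h.2 z
  have hd1 : (d : ℝ) ^ (-c) ≤ 1 := by
    apply Real.rpow_le_one_of_one_le_of_nonpos _ (by linarith)
    exact_mod_cast (by omega : 1 ≤ d)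
  have h1 := H d hd _ _ (hw P0 hP) (hw Q0 hQ) 1 hd1 le_rfl
  refine le_trans (measure_mono ?_) h1
  intro ξ hξ hf
  apply hξ
  have e : ∀ (P : Polynomial ℂ) (ζ : Fin (d + 1) → ℂ), P + Polynomial.C (τ : ℂ) * su2 ζ =
      Polynomial.C (τ : ℂ) * (Polynomial.C ((τ⁻¹ : ℝ) : ℂ) * P +
        Polynomial.C ((1 : ℝ) : ℂ) * su2 ζ) := by
    intro P ζ
    have h2 : Polynomial.C (τ : ℂ) * Polynomial.C ((τ⁻¹ : ℝ) : ℂ) = 1 := by
      rw [← Polynomial.C_mul, Complex.ofReal_inv, mul_inv_cancel₀ ht, Polynomial.C_1]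
    rw [Complex.ofReal_one, Polynomial.C_1, one_mul, mul_add, ← mul_assoc, h2, one_mul]
  obtain ⟨f1, f2, f3, f4⟩ := hf
  rw [e P0 ξ.1, e Q0 ξ.2]
  refine ⟨coprime_scale ht f1, ?_, fun ε hε => ?_, ?_⟩
  · rw [natDegree_C_mul ht, natDegree_C_mul ht]
    exact f2
  · obtain ⟨A, B, g1, g2, g3, f, g4, g5⟩ := f3 (ε / τ) (by positivity)
    refine ⟨Polynomial.C (τ : ℂ) * A, Polynomial.C (τ : ℂ) * B, coprime_scale ht g1, ?_,
      fun i => ?_, f, map_scale ht g4, g5⟩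
    · rw [natDegree_C_mul ht, natDegree_C_mul ht]
      exact g2
    · have h3 : ∀ A' P' : Polynomial ℂ, ‖A'.coeff i - P'.coeff i‖ < ε / τ →
          ‖(Polynomial.C (τ : ℂ) * A').coeff i - (Polynomial.C (τ : ℂ) * P').coeff i‖ < ε := by
        intro A' P' h
        rw [coeff_C_mul, coeff_C_mul, ← mul_sub, norm_mul, Complex.norm_real, Real.norm_eq_abs,
          abs_of_pos hτ0, mul_comm]
        exact (lt_div_iff₀ hτ0).1 h
      exact ⟨h3 _ _ (g3 i).1, h3 _ _ (g3 i).2⟩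
  · obtain ⟨f, g4, g5⟩ := f4
    exact ⟨f, map_scale ht g4, g5⟩

/-- For every `ε > 0` there are `C` and `c > 0` such that for all `d ≥ 2`, all polynomials `P0`, `Q0` of degree at most `d` with
`|P0(z)|, |Q0(z)| ≤ (1 + |z|^2)^(d/2)` and all `τ ≥ d^-c`, the following holds for the random pair
`P = P0 + τ G1`, `Q = Q0 + τ G2` with independent `SU(2)` Gaussian polynomials `G1`, `G2`: with probability at
least `1 - C d^(-1+ε)` the pair is coprime, the rational map `P/Q` has degree `d` and is a limit of hyperbolic rational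
maps of degree `d`, and no critical point of `P/Q` is attracted to an attracting cycle. -/
theorem result_of (hG : Pool.Agent.H41.SX.GsMain) (hD : Pool.Agent.H41.SX.DetMain) (ε : ℝ) (hε : 0 < ε) :
    ∃ C c : ℝ, 0 < c ∧ ∀ d : ℕ, 2 ≤ d → ∀ P0 Q0 : Polynomial ℂ,
    WeightedLeOne d P0 → WeightedLeOne d Q0 → ∀ τ : ℝ, (d : ℝ) ^ (-c) ≤ τ →
    noise d {ξ | ¬ (IsCoprime (P0 + Polynomial.C (τ : ℂ) * su2 ξ.1) (Q0 + Polynomial.C (τ : ℂ) * su2 ξ.2) ∧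
      max (P0 + Polynomial.C (τ : ℂ) * su2 ξ.1).natDegree
        (Q0 + Polynomial.C (τ : ℂ) * su2 ξ.2).natDegree = d ∧
      IsLimitOfHyperbolic d (P0 + Polynomial.C (τ : ℂ) * su2 ξ.1)
        (Q0 + Polynomial.C (τ : ℂ) * su2 ξ.2) ∧
      NoneAttracted (P0 + Polynomial.C (τ : ℂ) * su2 ξ.1)
        (Q0 + Polynomial.C (τ : ℂ) * su2 ξ.2))} ≤ ENNReal.ofReal (C * (d : ℝ) ^ (-1 + ε)) := by
  obtain ⟨C, c, hc, H⟩ := aux2 hG hD (ε0 := min ε 1) (lt_min hε one_pos) (min_le_right _ _)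
  refine ⟨max C 0, c, hc, fun d hd P0 Q0 hP hQ τ hτ => ?_⟩
  have hD1 : (1 : ℝ) ≤ d := by exact_mod_cast (by omega : 1 ≤ d)
  have hD0 : (0 : ℝ) < d := by linarith
  refine (H d hd P0 Q0 hP hQ τ hτ).trans (ENNReal.ofReal_le_ofReal ?_)
  calc C * (d : ℝ) ^ (-1 + min ε 1) ≤ max C 0 * (d : ℝ) ^ (-1 + min ε 1) :=
        mul_le_mul_of_nonneg_right (le_max_left _ _) (Real.rpow_nonneg hD0.le _)
    _ ≤ max C 0 * (d : ℝ) ^ (-1 + ε) := by
        refine mul_le_mul_of_nonneg_left ?_ (le_max_right _ _)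
        exact Real.rpow_le_rpow_of_exponent_le hD1 (by linarith [min_le_left ε 1])

end Pool.Agent.H41.SX.Res
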