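import Pool.Agent.H41.SX.Def
import Pool.Agent.H47.SF.Bnd
import Pool.Agent.H47.SF.Gd

/-!
# Smoothed Fatou (MP_8f2e1c_an), sharp form: regular maps
-/

set_option autoImplicit false

open Finset Filter Topology

namespace Pool.Agent.H41.SX

open Pool.H70.SF Pool.Agent.H47.SF Pool.Agent.H41.RF

/-- `Rg (d ^ 5 / 2)` from `GG`, the norm and the critical points nearby -/
theorem rgx {d : ℕ} (hd : 100 ≤ d) {R : ℝ} (hR : 1 ≤ R) (hRd : R ^ 2 ≤ d) {X : CV d}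
    (gg : Pool.Agent.H73.ES.GG R X) (bn : BN2 X ≤ ((d : ℝ) ^ 5 / 2) ^ 2)
    (crn : ∀ u, IsU u → ∃ c, IsU c ∧ JJ X c = 0 ∧ ‖wd u c‖ ≤ (d : ℝ) ^ 5 / 2 * ‖aa X u‖) :
    Rg ((d : ℝ) ^ 5 / 2) X := by
  have hd1 : 1 ≤ d := by omega
  have hD : (100 : ℝ) ≤ d := by exact_mod_cast hd
  have hd0 : (0 : ℝ) < d := by linarith
  have hlo : ∀ u, IsU u → (d : ℝ)⁻¹ ≤ nuF X u := fun u hu => (gg u hu).1
  have hhi : ∀ u, IsU u → nuF X u ≤ R := fun u hu => (gg u hu).2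
  have hMd : (d : ℝ) ≤ (d : ℝ) ^ 5 / 2 := by
    have h1 : (d : ℝ) ^ 5 = d * (d : ℝ) ^ 4 := by ring
    have h2 : (2 : ℝ) ≤ (d : ℝ) ^ 4 := by
      calc (2 : ℝ) ≤ 100 ^ 4 := by norm_num
        _ ≤ (d : ℝ) ^ 4 := pow_le_pow_left₀ (by norm_num) hD 4
    rw [h1]
    nlinarith
  refine ⟨bn, fun u hu => ?_, fun u hu => ?_, crn⟩
  · have h2 : ((d : ℝ) ^ 5 / 2)⁻¹ ≤ nuF X u := (inv_anti₀ hd0 hMd).trans (hlo u hu)
    have h3 : nuF X u ^ 2 = n2 (FF X u) := Pool.Agent.H47.SF.nuF_sq X u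
    rw [← h3]
    exact pow_le_pow_left₀ (by positivity) h2 2
  · have h1 := hlo u hu
    have hν : 0 < nuF X u := lt_of_lt_of_le (by positivity) h1
    have h2 := Pool.Agent.H47.SF.bndW hd1 (by linarith) hhi hu (t := 0) (by simp)
    rw [Pool.Agent.H47.SF.aa_zero_chart X hν] at h2
    have h3 : ((d : ℝ)⁻¹) ^ 2 ≤ nuF X u ^ 2 := pow_le_pow_left₀ (by positivity) h1 2
    have h4 : ‖aa X u‖ * ((d : ℝ)⁻¹) ^ 2 ≤ 8 * R ^ 2 * Real.sqrt d :=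
      (mul_le_mul_of_nonneg_left h3 (norm_nonneg _)).trans h2
    have h5 : ‖aa X u‖ ≤ 8 * R ^ 2 * Real.sqrt d * (d : ℝ) ^ 2 := by
      rw [inv_pow, ← div_eq_mul_inv, div_le_iff₀ (by positivity)] at h4
      exact h4
    refine h5.trans ?_
    have h6 : Real.sqrt d ≤ d := by
      rw [Real.sqrt_le_left hd0.le]
      nlinarith
    calc 8 * R ^ 2 * Real.sqrt d * (d : ℝ) ^ 2 ≤ 8 * d * d * (d : ℝ) ^ 2 := by gcongr
      _ = 8 * (d : ℝ) ^ 4 := by ring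
      _ ≤ (d : ℝ) ^ 5 / 2 := by
        have h7 : (d : ℝ) ^ 5 = d * (d : ℝ) ^ 4 := by ring
        have h8 : 0 < (d : ℝ) ^ 4 := by positivity
        rw [h7]
        nlinarith

end Pool.Agent.H41.SX
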